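import Mathlib

set_option autoImplicit false
open Finset

namespace Pool.Agent.H.Cube

lemma cross_ge {X0 Y0 X Y : ℝ} (hX : 0 < X0) (hY : 0 < Y0) (ht : X0 * Y - Y0 * X = 0)
    (hl : 0 ≤ Y0 * X + X0 * Y - 2 * (X0 * Y0)) : X0 * Y0 ≤ X * Y := by
  have h1 : X0 ≤ X := by
    by_contra h
    push Not at h
    nlinarith [mul_lt_mul_of_pos_left h hY]
  have h2 : Y0 ≤ Y := by
    by_contra h
    push Not at h
    nlinarith [mul_lt_mul_of_pos_left h hX]
  exact mul_le_mul h1 h2 hY.le (hX.le.trans h1)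

lemma cross_gt {X0 Y0 X Y : ℝ} (hX : 0 < X0) (hY : 0 < Y0) (ht : X0 * Y - Y0 * X = 0)
    (hl : 0 < Y0 * X + X0 * Y - 2 * (X0 * Y0)) : X0 * Y0 < X * Y := by
  have h1 : X0 < X := by
    by_contra h
    push Not at h
    nlinarith [mul_le_mul_of_nonneg_left h hY.le]
  have h2 : Y0 < Y := by
    by_contra h
    push Not at h
    nlinarith [mul_le_mul_of_nonneg_left h hX.le]
  exact mul_lt_mul'' h1 h2 hX.le hY.le

lemma ivt01 {f : ℝ → ℝ} (hf : Continuous f) (h0 : f 0 ≤ 0) (h1 : 0 ≤ f 1) :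
    ∃ q, 0 ≤ q ∧ q ≤ 1 ∧ f q = 0 := by
  obtain ⟨q, hq, hq'⟩ := intermediate_value_Icc (zero_le_one (α := ℝ)) hf.continuousOn ⟨h0, h1⟩
  exact ⟨q, hq.1, hq.2, hq'⟩

/-- segment crossing -/
lemma seg_cross {X0 Y0 x y x' y' : ℝ} (hX : 0 < X0) (hY : 0 < Y0)
    (h0 : X0 * y - Y0 * x ≤ 0) (h1 : 0 ≤ X0 * y' - Y0 * x')
    (hl : 0 ≤ Y0 * x + X0 * y - 2 * (X0 * Y0)) (hl' : 0 ≤ Y0 * x' + X0 * y' - 2 * (X0 * Y0)) :
    ∃ θ, 0 ≤ θ ∧ θ ≤ 1 ∧ X0 * Y0 ≤ ((1 - θ) * x + θ * x') * ((1 - θ) * y + θ * y') := by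
  obtain ⟨q, q0, q1, hq⟩ := ivt01 (f := fun θ => X0 * ((1 - θ) * y + θ * y') -
    Y0 * ((1 - θ) * x + θ * x')) (by fun_prop) (by simpa using h0) (by simpa using h1)
  refine ⟨q, q0, q1, cross_ge hX hY hq ?_⟩
  nlinarith [mul_nonneg q0 hl', mul_nonneg (sub_nonneg.2 q1) hl]

lemma zero_of_sum {Ω : Type*} [Fintype Ω] {g : Ω → ℝ} (h : ∀ s, g s ≤ 0) (hs : ∑ s, g s = 0) :
    ∀ s, g s = 0 := fun s =>
  (Finset.sum_eq_zero_iff_of_nonpos (fun s _ => h s)).1 hs s (mem_univ s)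

/-- the product of two linear functionals on a simplex is maximised on an edge -/
lemma lp {Ω : Type*} [Fintype Ω] (w x y : Ω → ℝ) (hw : ∀ s, 0 ≤ w s) (hw1 : ∑ s, w s = 1)
    (hx : ∀ s, 0 ≤ x s) (hy : ∀ s, 0 ≤ y s) :
    ∃ s s' θ, 0 ≤ θ ∧ θ ≤ 1 ∧ (∑ s, w s * x s) * (∑ s, w s * y s) ≤
      ((1 - θ) * x s + θ * x s') * ((1 - θ) * y s + θ * y s') := by
  have hne : Nonempty Ω := by
    by_contra h
    rw [not_nonempty_iff] at h
    simp at hw1
  obtain ⟨s0⟩ := hne
  obtain ⟨X0, hX0⟩ : ∃ X0, X0 = ∑ s, w s * x s := ⟨_, rfl⟩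
  obtain ⟨Y0, hY0⟩ : ∃ Y0, Y0 = ∑ s, w s * y s := ⟨_, rfl⟩
  have hX : 0 ≤ X0 := hX0 ▸ sum_nonneg fun s _ => mul_nonneg (hw s) (hx s)
  have hY : 0 ≤ Y0 := hY0 ▸ sum_nonneg fun s _ => mul_nonneg (hw s) (hy s)
  rw [← hX0, ← hY0]
  rcases hX.eq_or_lt with hX | hX
  · exact ⟨s0, s0, 0, le_rfl, zero_le_one, by rw [← hX]; simpa using mul_nonneg (hx s0) (hy s0)⟩
  rcases hY.eq_or_lt with hY | hY
  · exact ⟨s0, s0, 0, le_rfl, zero_le_one, by rw [← hY]; simpa using mul_nonneg (hx s0) (hy s0)⟩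
  by_contra H
  push Not at H
  set τ : Ω → ℝ := fun s => X0 * y s - Y0 * x s with hτ
  set l : Ω → ℝ := fun s => Y0 * x s + X0 * y s - 2 * (X0 * Y0) with hl
  have sτ : ∑ s, w s * τ s = 0 := by
    have : ∑ s, w s * τ s = X0 * (∑ s, w s * y s) - Y0 * (∑ s, w s * x s) := by
      rw [mul_sum, mul_sum, ← sum_sub_distrib]
      exact sum_congr rfl fun s _ => by simp only [hτ]; ring
    rw [this, ← hX0, ← hY0]; ring
  have sl : ∑ s, w s * l s = 0 := by
    have : ∑ s, w s * l s = Y0 * (∑ s, w s * x s) + X0 * (∑ s, w s * y s) -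
        2 * (X0 * Y0) * ∑ s, w s := by
      rw [mul_sum, mul_sum, mul_sum, ← sum_add_distrib, ← sum_sub_distrib]
      exact sum_congr rfl fun s _ => by simp only [hl]; ring
    rw [this, hw1, ← hX0, ← hY0]; ring
  have hZ : ∀ s, τ s = 0 → l s < 0 := by
    intro s hs
    by_contra h
    push Not at h
    have := H s s 0 le_rfl zero_le_one
    have h2 := cross_ge hX hY hs h
    simp at this
    linarith
  have hNP : ∀ s s', τ s < 0 → 0 < τ s' → τ s' * l s - τ s * l s' < 0 := by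
    intro s s' hs hs'
    by_contra h
    push Not at h
    have hd : 0 < τ s' - τ s := by linarith
    have := H s s' (-τ s / (τ s' - τ s)) (div_nonneg (by linarith) hd.le)
      ((div_le_one hd).2 (by linarith))
    refine absurd (cross_ge hX hY ?_ ?_) (not_le.2 this)
    · have e : X0 * ((1 - -τ s / (τ s' - τ s)) * y s + -τ s / (τ s' - τ s) * y s') -
          Y0 * ((1 - -τ s / (τ s' - τ s)) * x s + -τ s / (τ s' - τ s) * x s') =
          (1 - -τ s / (τ s' - τ s)) * τ s + -τ s / (τ s' - τ s) * τ s' := by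
        generalize -τ s / (τ s' - τ s) = θ
        simp only [hτ]; ring
      rw [e]; field_simp; ring
    · have e : Y0 * ((1 - -τ s / (τ s' - τ s)) * x s + -τ s / (τ s' - τ s) * x s') +
          X0 * ((1 - -τ s / (τ s' - τ s)) * y s + -τ s / (τ s' - τ s) * y s') - 2 * (X0 * Y0) =
          (1 - -τ s / (τ s' - τ s)) * l s + -τ s / (τ s' - τ s) * l s' := by
        generalize -τ s / (τ s' - τ s) = θ
        simp only [hl]; ring
      have e2 : (1 - -τ s / (τ s' - τ s)) * l s + -τ s / (τ s' - τ s) * l s' =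
          (τ s' * l s - τ s * l s') / (τ s' - τ s) := by field_simp; ring
      rw [e, e2]
      exact div_nonneg h hd.le
  have hall : ∀ s, w s = 0 := by
    by_cases hN : (univ.filter fun s => τ s < 0).Nonempty
    · obtain ⟨m, hm, hmax⟩ := exists_max_image _ (fun s => l s / (-τ s)) hN
      have hm' : τ m < 0 := (mem_filter.1 hm).2
      set lam := l m / (-τ m) with hlam
      have hlt : ∀ s, 0 ≤ τ s → l s + lam * τ s < 0 := by
        intro s hs
        rcases hs.eq_or_lt with hs | hs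
        · rw [← hs]; simpa using hZ s hs.symm
        · have := hNP m s hm' hs
          have e : l s + lam * τ s = (τ s * l m - τ m * l s) / (-τ m) := by
            rw [hlam]; have := hm'.ne; field_simp; ring
          rw [e]
          exact div_neg_of_neg_of_pos this (by linarith)
      have hle : ∀ s, l s + lam * τ s ≤ 0 := by
        intro s
        rcases lt_or_ge (τ s) 0 with hs | hs
        · have := hmax s (mem_filter.2 ⟨mem_univ _, hs⟩)
          rw [div_le_iff₀ (by linarith)] at this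
          linarith
        · exact (hlt s hs).le
      have z := zero_of_sum (g := fun s => w s * (l s + lam * τ s))
        (fun s => mul_nonpos_of_nonneg_of_nonpos (hw s) (hle s)) (by
          simp only [mul_add, sum_add_distrib, sl, zero_add]
          have : ∑ s, w s * (lam * τ s) = lam * ∑ s, w s * τ s := by
            rw [mul_sum]; exact sum_congr rfl fun s _ => by ring
          rw [this, sτ, mul_zero])
      have z1 : ∀ s, 0 ≤ τ s → w s = 0 := fun s hs =>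
        (mul_eq_zero.1 (z s)).resolve_right (hlt s hs).ne
      have z2 := zero_of_sum (g := fun s => w s * τ s) (fun s => by
        rcases lt_or_ge (τ s) 0 with hs | hs
        · exact mul_nonpos_of_nonneg_of_nonpos (hw s) hs.le
        · simp [z1 s hs]) sτ
      intro s
      rcases lt_or_ge (τ s) 0 with hs | hs
      · exact (mul_eq_zero.1 (z2 s)).resolve_right hs.ne
      · exact z1 s hs
    · have hN' : ∀ s, 0 ≤ τ s := by
        intro s
        by_contra h
        exact hN ⟨s, mem_filter.2 ⟨mem_univ _, not_le.1 h⟩⟩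
      have z2 := zero_of_sum (g := fun s => -(w s * τ s))
        (fun s => neg_nonpos.2 (mul_nonneg (hw s) (hN' s))) (by rw [sum_neg_distrib, sτ, neg_zero])
      have z1 : ∀ s, τ s ≠ 0 → w s = 0 := fun s hs =>
        (mul_eq_zero.1 (neg_eq_zero.1 (z2 s))).resolve_right hs
      have z3 := zero_of_sum (g := fun s => w s * l s) (fun s => by
        by_cases hs : τ s = 0
        · exact mul_nonpos_of_nonneg_of_nonpos (hw s) (hZ s hs).le
        · simp [z1 s hs]) sl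
      intro s
      by_cases hs : τ s = 0
      · exact (mul_eq_zero.1 (z3 s)).resolve_right (hZ s hs).ne
      · exact z1 s hs
  simp [hall] at hw1

/-- interior maximum of a product of affine functions -/
lemma crit {X0 Y0 a b p : ℝ} (hp0 : 0 < p) (hp1 : p < 1)
    (h : ∀ s, 0 ≤ s → s ≤ 1 → (X0 + (s - p) * a) * (Y0 + (s - p) * b) ≤ X0 * Y0) :
    Y0 * a + X0 * b = 0 := by
  have hmax : IsLocalMax (fun s => (X0 + (s - p) * a) * (Y0 + (s - p) * b)) p := by
    filter_upwards [Icc_mem_nhds hp0 hp1] with s hs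
    simpa using h s hs.1 hs.2
  have hd : HasDerivAt (fun s => (X0 + (s - p) * a) * (Y0 + (s - p) * b))
      (a * (Y0 + (p - p) * b) + (X0 + (p - p) * a) * b) p := by
    have h1 : HasDerivAt (fun s => X0 + (s - p) * a) a p := by
      simpa using (((hasDerivAt_id p).sub_const p).mul_const a).const_add X0
    have h2 : HasDerivAt (fun s => Y0 + (s - p) * b) b p := by
      simpa using (((hasDerivAt_id p).sub_const p).mul_const b).const_add Y0
    exact h1.mul h2
  have := hmax.hasDerivAt_eq_zero hd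
  simp at this
  linarith

/-- bilinear interpolation -/
def bil (a b c d s t : ℝ) : ℝ := (1 - s) * ((1 - t) * a + t * b) + s * ((1 - t) * c + t * d)

/-- the two-coordinate lemma -/
lemma two {x0 x1 x2 x3 y0 y1 y2 y3 p q : ℝ} (hp0 : 0 < p) (hp1 : p < 1) (hq0 : 0 < q)
    (hq1 : q < 1) (hx1 : x1 ≤ x0) (hx2 : x2 ≤ x0) (hx3 : x3 ≤ x1) (hx4 : x3 ≤ x2)
    (hy1 : y0 ≤ y1) (hy2 : y0 ≤ y2) (hy3 : y1 ≤ y3) (hy4 : y2 ≤ y3)
    (hX : 0 < bil x0 x1 x2 x3 p q) (hY : 0 < bil y0 y1 y2 y3 p q)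
    (H1 : ∀ s t, 0 ≤ s → s ≤ 1 → 0 ≤ t → t ≤ 1 → bil x0 x1 x2 x3 s t * bil y0 y1 y2 y3 s t ≤
      bil x0 x1 x2 x3 p q * bil y0 y1 y2 y3 p q)
    (H2 : ∀ s, 0 ≤ s → s ≤ 1 → bil x0 x1 x1 x3 s s * bil y0 y1 y1 y3 s s ≤
      bil x0 x1 x2 x3 p q * bil y0 y1 y2 y3 p q)
    (H2' : ∀ s, 0 ≤ s → s ≤ 1 → bil x0 x2 x2 x3 s s * bil y0 y2 y2 y3 s s ≤
      bil x0 x1 x2 x3 p q * bil y0 y1 y2 y3 p q)
    (H3 : ∀ t, 0 ≤ t → t ≤ 1 → bil x0 x1 x2 x3 0 t * bil y0 y1 y2 y3 0 t <
      bil x0 x1 x2 x3 p q * bil y0 y1 y2 y3 p q)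
    (H4 : ∀ s, 0 ≤ s → s ≤ 1 → bil x0 x1 x2 x3 s 1 * bil y0 y1 y2 y3 s 1 <
      bil x0 x1 x2 x3 p q * bil y0 y1 y2 y3 p q) :
    p = q ∧ x1 = x2 ∧ y1 = y2 := by
  obtain ⟨X0, hX0⟩ : ∃ X0, X0 = bil x0 x1 x2 x3 p q := ⟨_, rfl⟩
  obtain ⟨Y0, hY0⟩ : ∃ Y0, Y0 = bil y0 y1 y2 y3 p q := ⟨_, rfl⟩
  rw [← hX0] at hX H1 H2 H2' H3 H4
  rw [← hY0] at hY H1 H2 H2' H3 H4
  have c1 := crit (X0 := X0) (Y0 := Y0) (a := (1 - q) * (x2 - x0) + q * (x3 - x1))
    (b := (1 - q) * (y2 - y0) + q * (y3 - y1)) hp0 hp1 (fun s s0 s1 => by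
      have := H1 s q s0 s1 hq0.le hq1.le
      convert this using 2 <;> simp only [hX0, hY0, bil] <;> ring)
  have c2 := crit (X0 := X0) (Y0 := Y0) (a := (1 - p) * (x1 - x0) + p * (x3 - x2))
    (b := (1 - p) * (y1 - y0) + p * (y3 - y2)) hq0 hq1 (fun s s0 s1 => by
      have := H1 p s hp0.le hp1.le s0 s1
      convert this using 2 <;> simp only [hX0, hY0, bil] <;> ring)
  obtain ⟨c, hc⟩ : ∃ c, c = Y0 * (x0 - x1 - x2 + x3) + X0 * (y0 - y1 - y2 + y3) := ⟨_, rfl⟩
  have L : ∀ s t, Y0 * bil x0 x1 x2 x3 s t + X0 * bil y0 y1 y2 y3 s t - 2 * (X0 * Y0) =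
      c * ((s - p) * (t - q)) := by
    intro s t
    have ex : bil x0 x1 x2 x3 s t = X0 + (s - p) * ((1 - q) * (x2 - x0) + q * (x3 - x1)) +
      (t - q) * ((1 - p) * (x1 - x0) + p * (x3 - x2)) + (s - p) * (t - q) * (x0 - x1 - x2 + x3) := by
      simp only [hX0, bil]; ring
    have ey : bil y0 y1 y2 y3 s t = Y0 + (s - p) * ((1 - q) * (y2 - y0) + q * (y3 - y1)) +
      (t - q) * ((1 - p) * (y1 - y0) + p * (y3 - y2)) + (s - p) * (t - q) * (y0 - y1 - y2 + y3) := by
      simp only [hY0, bil]; ring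
    rw [ex, ey, hc]
    linear_combination (s - p) * c1 + (t - q) * c2
  have L0 := L 0 0
  have L1 := L 0 1
  have L2 := L 1 0
  have L3 := L 1 1
  simp only [bil, sub_zero, mul_zero, zero_mul, add_zero, one_mul, mul_one, sub_self,
    zero_add] at L0 L1 L2 L3
  have p1 : 0 < 1 - p := by linarith
  have q1 : 0 < 1 - q := by linarith
  have bx0 : X0 ≤ (1 - q) * x0 + q * x1 := by
    simp only [hX0, bil]
    linarith [mul_nonneg hp0.le (mul_nonneg q1.le (sub_nonneg.2 hx2)),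
      mul_nonneg hp0.le (mul_nonneg hq0.le (sub_nonneg.2 hx3))]
  have by0 : (1 - q) * y0 + q * y1 ≤ Y0 := by
    simp only [hY0, bil]
    linarith [mul_nonneg hp0.le (mul_nonneg q1.le (sub_nonneg.2 hy2)),
      mul_nonneg hp0.le (mul_nonneg hq0.le (sub_nonneg.2 hy3))]
  have bx3 : (1 - p) * x1 + p * x3 ≤ X0 := by
    simp only [hX0, bil]
    linarith [mul_nonneg q1.le (mul_nonneg p1.le (sub_nonneg.2 hx1)),
      mul_nonneg q1.le (mul_nonneg hp0.le (sub_nonneg.2 hx4))]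
  have by3 : Y0 ≤ (1 - p) * y1 + p * y3 := by
    simp only [hY0, bil]
    linarith [mul_nonneg q1.le (mul_nonneg p1.le (sub_nonneg.2 hy1)),
      mul_nonneg q1.le (mul_nonneg hp0.le (sub_nonneg.2 hy4))]
  have hcpos : 0 < c := by
    by_contra hc0
    push Not at hc0
    have l1 : 0 ≤ Y0 * x1 + X0 * y1 - 2 * (X0 * Y0) := by
      rw [L1]; linarith [mul_nonneg (neg_nonneg.2 hc0) (mul_nonneg hp0.le q1.le)]
    rcases le_total 0 (X0 * y1 - Y0 * x1) with h | h
    · obtain ⟨θ, t0, t1, hθ⟩ := seg_cross (x := (1 - q) * x0 + q * x1) (y := (1 - q) * y0 + q * y1)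
        (x' := x1) (y' := y1) hX hY
        (by linarith [mul_le_mul_of_nonneg_left by0 hX.le, mul_le_mul_of_nonneg_left bx0 hY.le])
        h (by have := L 0 q; simp only [bil] at this; linarith) l1
      have := H3 ((1 - θ) * q + θ) (by linarith [mul_nonneg (sub_nonneg.2 t1) hq0.le])
        (by linarith [mul_nonneg (sub_nonneg.2 t1) q1.le])
      refine absurd hθ (not_le.2 (lt_of_eq_of_lt ?_ this))
      simp only [bil]; ring
    · obtain ⟨θ, t0, t1, hθ⟩ := seg_cross (x' := (1 - p) * x1 + p * x3)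
        (y' := (1 - p) * y1 + p * y3) (x := x1) (y := y1) hX hY h
        (by linarith [mul_le_mul_of_nonneg_left by3 hX.le, mul_le_mul_of_nonneg_left bx3 hY.le])
        l1 (by have := L p 1; simp only [bil] at this; linarith)
      have := H4 (θ * p) (by positivity) (by linarith [mul_nonneg (sub_nonneg.2 t1) hp0.le])
      refine absurd hθ (not_le.2 (lt_of_eq_of_lt ?_ this))
      simp only [bil]; ring
  have t0 : X0 * y0 - Y0 * x0 ≤ 0 := by
    have a1 : X0 ≤ x0 := by linarith [mul_nonneg hq0.le (sub_nonneg.2 hx1)]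
    have a2 : y0 ≤ Y0 := by linarith [mul_nonneg hq0.le (sub_nonneg.2 hy1)]
    linarith [mul_le_mul_of_nonneg_left a2 hX.le, mul_le_mul_of_nonneg_left a1 hY.le]
  have t3 : 0 ≤ X0 * y3 - Y0 * x3 := by
    have a1 : x3 ≤ X0 := by linarith [mul_nonneg p1.le (sub_nonneg.2 hx3)]
    have a2 : Y0 ≤ y3 := by linarith [mul_nonneg p1.le (sub_nonneg.2 hy3)]
    linarith [mul_le_mul_of_nonneg_left a2 hX.le, mul_le_mul_of_nonneg_left a1 hY.le]
  obtain ⟨u, u0, u1, hu⟩ := ivt01 (f := fun s => X0 * bil y0 y1 y1 y3 s s -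
    Y0 * bil x0 x1 x1 x3 s s) (by unfold bil; fun_prop) (by simpa [bil] using t0)
    (by simpa [bil] using t3)
  obtain ⟨v, v0, v1, hv⟩ := ivt01 (f := fun s => X0 * bil y0 y2 y2 y3 s s -
    Y0 * bil x0 x2 x2 x3 s s) (by unfold bil; fun_prop) (by simpa [bil] using t0)
    (by simpa [bil] using t3)
  have Lu : Y0 * bil x0 x1 x1 x3 u u + X0 * bil y0 y1 y1 y3 u u - 2 * (X0 * Y0) =
      c * ((1 - u) ^ 2 * (p * q) - 2 * u * (1 - u) * (p * (1 - q)) + u ^ 2 * ((1 - p) * (1 - q))) := by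
    simp only [bil]
    linear_combination (1 - u) ^ 2 * L0 + 2 * u * (1 - u) * L1 + u ^ 2 * L3
  have Lv : Y0 * bil x0 x2 x2 x3 v v + X0 * bil y0 y2 y2 y3 v v - 2 * (X0 * Y0) =
      c * ((1 - v) ^ 2 * (p * q) - 2 * v * (1 - v) * ((1 - p) * q) + v ^ 2 * ((1 - p) * (1 - q))) := by
    simp only [bil]
    linear_combination (1 - v) ^ 2 * L0 + 2 * v * (1 - v) * L2 + v ^ 2 * L3
  have nu : ¬ 0 < (1 - u) ^ 2 * (p * q) - 2 * u * (1 - u) * (p * (1 - q)) +
      u ^ 2 * ((1 - p) * (1 - q)) := fun h =>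
    absurd (cross_gt hX hY hu (by rw [Lu]; positivity)) (not_lt.2 (H2 u u0 u1))
  have nv : ¬ 0 < (1 - v) ^ 2 * (p * q) - 2 * v * (1 - v) * ((1 - p) * q) +
      v ^ 2 * ((1 - p) * (1 - q)) := fun h =>
    absurd (cross_gt hX hY hv (by rw [Lv]; positivity)) (not_lt.2 (H2' v v0 v1))
  have hpq : p = q := by
    rcases lt_trichotomy p q with h | h | h
    · exfalso
      apply nu
      have e : p * q * ((1 - u) ^ 2 * (p * q) - 2 * u * (1 - u) * (p * (1 - q)) +
          u ^ 2 * ((1 - p) * (1 - q))) = ((1 - u) * (p * q) - u * (p * (1 - q))) ^ 2 +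
          u ^ 2 * (p * (1 - q) * (q - p)) := by ring
      have hqp : 0 < q - p := by linarith
      have : 0 < ((1 - u) * (p * q) - u * (p * (1 - q))) ^ 2 + u ^ 2 * (p * (1 - q) * (q - p)) := by
        rcases u0.eq_or_lt with h0 | h0
        · have hh := h0.symm
          subst hh
          norm_num
          positivity
        · positivity
      rw [← e] at this
      exact (mul_pos_iff_of_pos_left (mul_pos hp0 hq0)).1 this
    · exact h
    · exfalso
      apply nv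
      have e : p * q * ((1 - v) ^ 2 * (p * q) - 2 * v * (1 - v) * ((1 - p) * q) +
          v ^ 2 * ((1 - p) * (1 - q))) = ((1 - v) * (p * q) - v * ((1 - p) * q)) ^ 2 +
          v ^ 2 * (q * (1 - p) * (p - q)) := by ring
      have hqp : 0 < p - q := by linarith
      have : 0 < ((1 - v) * (p * q) - v * ((1 - p) * q)) ^ 2 + v ^ 2 * (q * (1 - p) * (p - q)) := by
        rcases v0.eq_or_lt with h0 | h0
        · have hh := h0.symm
          subst hh
          norm_num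
          positivity
        · positivity
      rw [← e] at this
      exact (mul_pos_iff_of_pos_left (mul_pos hp0 hq0)).1 this
  subst hpq
  have hup : u = p := by
    by_contra h
    apply nu
    have e : (1 - u) ^ 2 * (p * p) - 2 * u * (1 - u) * (p * (1 - p)) +
      u ^ 2 * ((1 - p) * (1 - p)) = (u - p) ^ 2 := by ring
    rw [e]
    exact sq_pos_of_ne_zero (sub_ne_zero.2 h)
  subst hup
  have l0 : Y0 * bil x0 x1 x1 x3 u u + X0 * bil y0 y1 y1 y3 u u - 2 * (X0 * Y0) = 0 := by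
    rw [Lu]; ring
  have ex : bil x0 x1 x1 x3 u u = X0 := by
    have : Y0 * (bil x0 x1 x1 x3 u u - X0) = 0 := by linarith
    linarith [(mul_eq_zero.1 this).resolve_left hY.ne']
  have ey : bil y0 y1 y1 y3 u u = Y0 := by
    have : X0 * (bil y0 y1 y1 y3 u u - Y0) = 0 := by linarith
    linarith [(mul_eq_zero.1 this).resolve_left hX.ne']
  have hpp : u * (1 - u) ≠ 0 := (mul_pos hp0 p1).ne'
  refine ⟨rfl, ?_, ?_⟩
  · have : u * (1 - u) * (x1 - x2) = 0 := by
      simp only [hX0, bil] at ex; linear_combination ex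
    linarith [(mul_eq_zero.1 this).resolve_left hpp]
  · have : u * (1 - u) * (y1 - y2) = 0 := by
      simp only [hY0, bil] at ey; linear_combination ey
    linarith [(mul_eq_zero.1 this).resolve_left hpp]

end Pool.Agent.H.Cube
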