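import Pool.Agent.H.MP_e859cd_co.A

set_option autoImplicit false
open Finset Function

namespace Pool.Agent.H.Cube
noncomputable section
open Classical

/-- expectation under a product weight -/
def EW {r : ℕ} {Ω : Type} [Fintype Ω] (W : Fin r → Ω → ℝ) (f : (Fin r → Ω) → ℝ) : ℝ :=
  ∑ x, (∏ i, W i (x i)) * f x

section gen
variable {r : ℕ} {Ω : Type} [Fintype Ω]

lemma EW_ins (W : Fin (r + 1) → Ω → ℝ) (f : (Fin (r + 1) → Ω) → ℝ) (i : Fin (r + 1)) :
    EW W f = ∑ s, W i s * EW (fun k => W (i.succAbove k)) (fun z => f (i.insertNth s z)) := by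
  unfold EW
  rw [← (Fin.insertNthEquiv (fun _ => Ω) i).sum_comp, Fintype.sum_prod_type]
  refine sum_congr rfl fun s _ => ?_
  rw [mul_sum]
  refine sum_congr rfl fun z _ => ?_
  rw [Fin.prod_univ_succAbove _ i]
  simp [Fin.insertNthEquiv, mul_assoc]

lemma EW_cond (W : Fin (r + 1) → Ω → ℝ) (f : (Fin (r + 1) → Ω) → ℝ) (i : Fin (r + 1))
    (h : ∑ s, W i s = 1) (s : Ω) :
    EW W (fun x => f (update x i s)) =
      EW (fun k => W (i.succAbove k)) (fun z => f (i.insertNth s z)) := by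
  rw [EW_ins _ _ i]
  simp only [Fin.update_insertNth]
  rw [← sum_mul, h, one_mul]

lemma EW_split (W : Fin r → Ω → ℝ) (f : (Fin r → Ω) → ℝ) (i : Fin r) (h : ∑ s, W i s = 1) :
    EW W f = ∑ s, W i s * EW W (fun x => f (update x i s)) := by
  cases r with
  | zero => exact i.elim0
  | succ r =>
    rw [EW_ins W f i]
    exact sum_congr rfl fun s _ => by rw [EW_cond W f i h]

lemma EW_indep (W W' : Fin r → Ω → ℝ) (f : (Fin r → Ω) → ℝ) (i : Fin r) (h : ∑ s, W i s = 1)
    (h' : ∑ s, W' i s = 1) (he : ∀ k, k ≠ i → W k = W' k) (s : Ω) :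
    EW W (fun x => f (update x i s)) = EW W' (fun x => f (update x i s)) := by
  cases r with
  | zero => exact i.elim0
  | succ r =>
    rw [EW_cond W f i h, EW_cond W' f i h']
    congr 1
    funext k
    exact he _ (Fin.succAbove_ne i k)

lemma EW_mono {W : Fin r → Ω → ℝ} (hW : ∀ i s, 0 ≤ W i s) {f g : (Fin r → Ω) → ℝ}
    (h : ∀ x, f x ≤ g x) : EW W f ≤ EW W g :=
  sum_le_sum fun x _ => mul_le_mul_of_nonneg_left (h x) (prod_nonneg fun i _ => hW i _)

lemma EW_nonneg {W : Fin r → Ω → ℝ} (hW : ∀ i s, 0 ≤ W i s) {f : (Fin r → Ω) → ℝ}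
    (h : ∀ x, 0 ≤ f x) : 0 ≤ EW W f :=
  sum_nonneg fun x _ => mul_nonneg (prod_nonneg fun i _ => hW i _) (h x)

lemma EW_add (W : Fin r → Ω → ℝ) (f g : (Fin r → Ω) → ℝ) :
    EW W (fun x => f x + g x) = EW W f + EW W g := by
  simp only [EW, mul_add, sum_add_distrib]

lemma EW_eq {W : Fin r → Ω → ℝ} (hW : ∀ i s, 0 < W i s) {f g : (Fin r → Ω) → ℝ}
    (h : ∀ x, f x ≤ g x) (he : EW W f = EW W g) (x : Fin r → Ω) : f x = g x := by
  have := (sum_eq_sum_iff_of_le (fun x _ => mul_le_mul_of_nonneg_left (h x)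
    (prod_nonneg fun i _ => (hW i (x i)).le))).1 he x (mem_univ x)
  exact mul_left_cancel₀ (prod_pos fun i _ => hW i (x i)).ne' this

lemma EW_pos {W : Fin r → Ω → ℝ} (hW : ∀ i s, 0 < W i s) {f : (Fin r → Ω) → ℝ}
    (h : ∀ x, 0 ≤ f x) (x : Fin r → Ω) (hx : 0 < f x) : 0 < EW W f :=
  sum_pos' (fun x _ => mul_nonneg (prod_nonneg fun i _ => (hW i _).le) (h x))
    ⟨x, mem_univ x, mul_pos (prod_pos fun i _ => hW i _) hx⟩

lemma EW_push {Ω' : Type} [Fintype Ω'] (W : Fin r → Ω → ℝ) (W' : Fin r → Ω' → ℝ)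
    (φ : Fin r → Ω' → Ω) (h : ∀ i u, W i u = ∑ b, if u = φ i b then W' i b else 0)
    (f : (Fin r → Ω) → ℝ) : EW W f = EW W' (fun z => f (fun i => φ i (z i))) := by
  unfold EW
  simp only [h, Finset.prod_univ_sum, Fintype.piFinset_univ, sum_mul]
  rw [sum_comm]
  refine sum_congr rfl fun z _ => ?_
  rw [sum_eq_single (fun i => φ i (z i))]
  · simp
  · intro x _ hx
    obtain ⟨i, hi⟩ := Function.ne_iff.1 hx
    rw [prod_eq_zero (mem_univ i) (by simp [hi]), zero_mul]
  · simp

/-- indicator of a proposition -/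
def ind (P : Prop) : ℝ := if P then 1 else 0

lemma ind_nonneg (P : Prop) : 0 ≤ ind P := by unfold ind; split_ifs <;> norm_num
lemma ind_mono {P Q : Prop} (h : P → Q) : ind P ≤ ind Q := by
  unfold ind; by_cases hP : P
  · simp [hP, h hP]
  · simp only [hP, if_false]; split_ifs <;> norm_num
lemma ind_or_and (P Q : Prop) : ind (P ∨ Q) + ind (P ∧ Q) = ind P + ind Q := by
  unfold ind; by_cases hP : P <;> by_cases hQ : Q <;> simp [hP, hQ]

/-- disagreement indicator -/
def ne1 {Ω : Type} (a b : Ω) : ℕ := if a = b then 0 else 1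

@[simp] lemma ne1_self {Ω : Type} (a : Ω) : ne1 a a = 0 := by simp [ne1]
lemma ne1_ne {Ω : Type} {a b : Ω} (h : a ≠ b) : ne1 a b = 1 := by simp [ne1, h]

/-- Hamming distance -/
def hd {Ω : Type} (x y : Fin r → Ω) : ℕ := ∑ k, ne1 (x k) (y k)

/-- Hamming separation -/
def Sep {Ω : Type} (d : ℕ) (A B : (Fin r → Ω) → Prop) : Prop := ∀ x y, A x → B y → d ≤ hd x y

lemma hd_le {Ω : Type} {x y x' y' : Fin r → Ω} (h : ∀ k, x' k ≠ y' k → x k ≠ y k) :
    hd x' y' ≤ hd x y :=
  sum_le_sum fun k _ => by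
    by_cases hk : x' k = y' k
    · simp [hk]
    · rw [ne1_ne hk, ne1_ne (h k hk)]

end gen

abbrev C (r : ℕ) := Fin r → Bool

def w (s : ℝ) (b : Bool) : ℝ := if b then s else 1 - s

@[simp] lemma w_true (s : ℝ) : w s true = s := rfl
@[simp] lemma w_false (s : ℝ) : w s false = 1 - s := rfl
lemma w_sum (s : ℝ) : ∑ b, w s b = 1 := by simp

def Ok {r : ℕ} (p : Fin r → ℝ) : Prop := ∀ i, 0 ≤ p i ∧ p i ≤ 1

def mu {r : ℕ} (p : Fin r → ℝ) (A : C r → Prop) : ℝ := EW (fun i => w (p i)) (fun x => ind (A x))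

def Bound (r d : ℕ) (M : ℝ) : Prop :=
  ∀ (p : Fin r → ℝ) (A B : C r → Prop), Ok p → Sep d A B → mu p A * mu p B ≤ M

section cube
variable {r : ℕ}

lemma w_nonneg {p : Fin r → ℝ} (hp : Ok p) (i : Fin r) (b : Bool) : 0 ≤ w (p i) b := by
  cases b
  · simpa using (hp i).2
  · simpa using (hp i).1

lemma w_pos {p : Fin r → ℝ} (hp : ∀ i, 0 < p i ∧ p i < 1) (i : Fin r) (b : Bool) :
    0 < w (p i) b := by
  cases b
  · simpa using (hp i).2
  · simpa using (hp i).1

lemma mu_nonneg {p : Fin r → ℝ} (hp : Ok p) (A : C r → Prop) : 0 ≤ mu p A :=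
  EW_nonneg (w_nonneg hp) fun _ => ind_nonneg _

lemma mu_mono {p : Fin r → ℝ} (hp : Ok p) {A B : C r → Prop} (h : ∀ x, A x → B x) :
    mu p A ≤ mu p B := EW_mono (w_nonneg hp) fun x => ind_mono (h x)

lemma mu_or_and (p : Fin r → ℝ) (A B : C r → Prop) :
    mu p (fun x => A x ∨ B x) + mu p (fun x => A x ∧ B x) = mu p A + mu p B := by
  unfold mu
  rw [← EW_add, ← EW_add]
  simp only [ind_or_and]

lemma mu_split (p : Fin r → ℝ) (A : C r → Prop) (i : Fin r) :
    mu p A = (1 - p i) * mu p (fun x => A (update x i false)) +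
      p i * mu p (fun x => A (update x i true)) := by
  unfold mu
  rw [EW_split _ _ i (w_sum _)]
  simp [add_comm]

lemma mu_indep (p : Fin r → ℝ) (A : C r → Prop) (i : Fin r) (s : ℝ) (b : Bool) :
    mu (update p i s) (fun x => A (update x i b)) = mu p (fun x => A (update x i b)) :=
  EW_indep _ _ (fun x => ind (A x)) i (w_sum _) (w_sum _) (fun k hk => by simp [hk]) b

lemma ok_update {p : Fin r → ℝ} (hp : Ok p) (i : Fin r) {s : ℝ} (h0 : 0 ≤ s) (h1 : s ≤ 1) :
    Ok (update p i s) := by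
  intro k
  by_cases hk : k = i
  · subst hk; simp [h0, h1]
  · simpa [hk] using hp k

lemma mu_cont (A : C r → Prop) : Continuous fun p : Fin r → ℝ => mu p A := by
  unfold mu EW
  refine continuous_finset_sum _ fun x _ => (continuous_finset_prod _ fun i _ => ?_).mul
    continuous_const
  cases x i
  · simp only [w_false]; fun_prop
  · simp only [w_true]; fun_prop

lemma exists_max (r d : ℕ) : ∃ (p : Fin r → ℝ) (A B : C r → Prop), Ok p ∧ Sep d A B ∧
    Bound r d (mu p A * mu p B) := by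
  have hK : IsCompact (Set.pi Set.univ fun _ : Fin r => Set.Icc (0 : ℝ) 1) :=
    isCompact_univ_pi fun _ => isCompact_Icc
  have hne : (Set.pi Set.univ fun _ : Fin r => Set.Icc (0 : ℝ) 1).Nonempty :=
    ⟨0, fun _ _ => ⟨le_rfl, zero_le_one⟩⟩
  have h1 : ∀ AB : {AB : (C r → Prop) × (C r → Prop) // Sep d AB.1 AB.2}, ∃ p, Ok p ∧
      ∀ p', Ok p' → mu p' AB.1.1 * mu p' AB.1.2 ≤ mu p AB.1.1 * mu p AB.1.2 := by
    intro AB
    obtain ⟨p, hp, hmax⟩ := hK.exists_isMaxOn hne
      ((mu_cont AB.1.1).mul (mu_cont AB.1.2)).continuousOn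
    exact ⟨p, fun i => hp i trivial, fun p' hp' => hmax (fun i _ => hp' i)⟩
  choose P hP hmax using h1
  haveI : Nonempty {AB : (C r → Prop) × (C r → Prop) // Sep d AB.1 AB.2} :=
    ⟨⟨(fun _ => False, fun _ => False), fun _ _ h => h.elim⟩⟩
  obtain ⟨m, hm⟩ := Finite.exists_max
    (fun AB : {AB : (C r → Prop) × (C r → Prop) // Sep d AB.1 AB.2} =>
      mu (P AB) AB.1.1 * mu (P AB) AB.1.2)
  exact ⟨P m, m.1.1, m.1.2, hP m, m.2, fun p A B hp hs =>
    (hmax ⟨(A, B), hs⟩ p hp).trans (hm ⟨(A, B), hs⟩)⟩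

lemma hd_ins (i : Fin (r + 1)) (b : Bool) (x y : C r) :
    hd (i.insertNth b x : C (r + 1)) (i.insertNth b y) = hd x y := by
  simp only [hd]
  rw [Fin.sum_univ_succAbove _ i]
  simp

lemma boundary {d : ℕ} {M : ℝ} (hM : Bound r d M) {p : Fin (r + 1) → ℝ} (hp : Ok p)
    {A B : C (r + 1) → Prop} (hs : Sep d A B) (i : Fin (r + 1)) (hi : p i = 0 ∨ p i = 1) :
    mu p A * mu p B ≤ M := by
  obtain ⟨b, hb⟩ : ∃ b : Bool, ∀ A : C (r + 1) → Prop,
      mu p A = mu (fun k => p (i.succAbove k)) (fun z => A (i.insertNth b z)) := by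
    rcases hi with hi | hi
    · refine ⟨false, fun A => ?_⟩
      unfold mu
      rw [EW_ins _ _ i]
      simp [hi]
    · refine ⟨true, fun A => ?_⟩
      unfold mu
      rw [EW_ins _ _ i]
      simp [hi]
  rw [hb A, hb B]
  exact hM _ _ _ (fun k => hp _) fun x y hx hy => by
    rw [← hd_ins i b]; exact hs _ _ hx hy

def DownAt (i : Fin r) (A : C r → Prop) : Prop := ∀ x, A (update x i true) → A (update x i false)
def UpAt (i : Fin r) (A : C r → Prop) : Prop := ∀ x, A (update x i false) → A (update x i true)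

lemma compress1 {d : ℕ} {p : Fin r → ℝ} (hp : Ok p) {A B : C r → Prop} (hs : Sep d A B)
    (i : Fin r) : ∃ (p' : Fin r → ℝ) (A' B' : C r → Prop), Ok p' ∧ Sep d A' B' ∧
      mu p A * mu p B ≤ mu p' A' * mu p' B' ∧ DownAt i A' ∧ UpAt i B' ∧
      ∀ j, j ≠ i → (DownAt j A → DownAt j A') ∧ (UpAt j B → UpAt j B') := by
  obtain ⟨t, m, m0, m1, hm⟩ : ∃ (t : Bool) (m : ℝ), 0 ≤ m ∧ 0 ≤ 1 - 2 * m ∧ ∀ X : Bool → ℝ,
      (1 - p i) * X false + p i * X true = m * (X false + X true) + (1 - 2 * m) * X t := by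
    rcases le_total (p i) (1 / 2) with h | h
    · exact ⟨false, p i, (hp i).1, by linarith, fun X => by ring⟩
    · exact ⟨true, 1 - p i, by linarith [(hp i).2], by linarith, fun X => by ring⟩
  let a : Fin 3 → C r → Prop := ![fun x => A (update x i false) ∨ A (update x i true),
    fun x => A (update x i t), fun x => A (update x i false) ∧ A (update x i true)]
  let b : Fin 3 → C r → Prop := ![fun x => B (update x i false) ∧ B (update x i true),
    fun x => B (update x i t), fun x => B (update x i false) ∨ B (update x i true)]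
  have acyl : ∀ s x u, a s (update x i u) ↔ a s x := by
    intro s x u; fin_cases s <;> simp [a]
  have bcyl : ∀ s x u, b s (update x i u) ↔ b s x := by
    intro s x u; fin_cases s <;> simp [b]
  have amono : ∀ s s', s ≤ s' → ∀ x, a s' x → a s x := by
    intro s s' h x
    fin_cases s <;> fin_cases s' <;> simp [a] at h ⊢ <;> cases t <;> tauto
  have bmono : ∀ s s', s ≤ s' → ∀ x, b s x → b s' x := by
    intro s s' h x
    fin_cases s <;> fin_cases s' <;> simp [b] at h ⊢ <;> cases t <;> tauto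
  have same : ∀ x y u, A (update x i u) → B (update y i u) → d ≤ hd x y := by
    intro x y u hx hy
    refine (hs _ _ hx hy).trans (hd_le fun k hk => ?_)
    by_cases h : k = i
    · subst h; simp at hk
    · simpa [h] using hk
  have diff : ∀ x y u v, x i ≠ y i → A (update x i u) → B (update y i v) →
      d ≤ hd x y := by
    intro x y u v hne hx hy
    refine (hs _ _ hx hy).trans (hd_le fun k hk => ?_)
    by_cases h : k = i
    · subst h; exact hne
    · simpa [h] using hk
  have sep1 : ∀ s x y, a s x → b s y → d ≤ hd x y := by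
    intro s x y
    fin_cases s
    · rintro (h | h) ⟨h1, h2⟩
      · exact same _ _ _ h h1
      · exact same _ _ _ h h2
    · exact same _ _ _
    · rintro ⟨h1, h2⟩ (h | h)
      · exact same _ _ _ h1 h
      · exact same _ _ _ h2 h
  have sep2 : ∀ s s' x y, x i ≠ y i → a s x → b s' y → d ≤ hd x y := by
    intro s s' x y hne hx hy
    rcases amono 0 s (Fin.zero_le _) x hx with h | h <;>
      rcases bmono s' 2 (Fin.le_last _) y hy with h' | h' <;> exact diff _ _ _ _ hne h h'
  have adown : ∀ j, j ≠ i → DownAt j A → ∀ s, DownAt j (a s) := by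
    intro j hj h s x
    have e : ∀ u, A (update (update x j true) i u) → A (update (update x j false) i u) := by
      intro u; rw [update_comm hj, update_comm hj]; exact h _
    fin_cases s
    · exact Or.imp (e _) (e _)
    · exact e _
    · exact And.imp (e _) (e _)
  have bup : ∀ j, j ≠ i → UpAt j B → ∀ s, UpAt j (b s) := by
    intro j hj h s x
    have e : ∀ u, B (update (update x j false) i u) → B (update (update x j true) i u) := by
      intro u; rw [update_comm hj, update_comm hj]; exact h _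
    fin_cases s
    · exact And.imp (e _) (e _)
    · exact e _
    · exact Or.imp (e _) (e _)
  have key : ∀ s s' θ, s ≤ s' → 0 ≤ θ → θ ≤ 1 → mu p A * mu p B ≤
      ((1 - θ) * mu p (a s) + θ * mu p (a s')) * ((1 - θ) * mu p (b s) + θ * mu p (b s')) →
      ∃ (p' : Fin r → ℝ) (A' B' : C r → Prop), Ok p' ∧ Sep d A' B' ∧
      mu p A * mu p B ≤ mu p' A' * mu p' B' ∧ DownAt i A' ∧ UpAt i B' ∧
      ∀ j, j ≠ i → (DownAt j A → DownAt j A') ∧ (UpAt j B → UpAt j B') := by
    intro s s' θ hss t0 t1 hle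
    have gm : ∀ c : Fin 3 → C r → Prop, (∀ s x u, c s (update x i u) ↔ c s x) →
        mu (update p i θ) (fun x => c (if x i then s' else s) x) =
          (1 - θ) * mu p (c s) + θ * mu p (c s') := by
      intro c hc
      rw [mu_split _ _ i]
      simp only [update_self, Bool.false_eq_true, if_false, if_true]
      rw [mu_indep p (c s) i θ false, mu_indep p (c s') i θ true]
      simp only [hc]
    refine ⟨update p i θ, fun x => a (if x i then s' else s) x,
      fun x => b (if x i then s' else s) x, ok_update hp i t0 t1, ?_, ?_, ?_, ?_, ?_⟩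
    · intro x y hx hy
      by_cases h : x i = y i
      · rw [← h] at hy; exact sep1 _ _ _ hx hy
      · exact sep2 _ _ _ _ h hx hy
    · rw [gm a acyl, gm b bcyl]; exact hle
    · intro x
      simp only [update_self, Bool.false_eq_true, if_false, if_true, acyl]
      exact amono _ _ hss x
    · intro x
      simp only [update_self, Bool.false_eq_true, if_false, if_true, bcyl]
      exact bmono _ _ hss x
    · intro j hj
      refine ⟨fun h x => ?_, fun h x => ?_⟩
      · simp only [update_of_ne hj.symm]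
        exact adown j hj h _ x
      · simp only [update_of_ne hj.symm]
        exact bup j hj h _ x
  obtain ⟨s, s', θ, t0, t1, hle⟩ := lp (Ω := Fin 3) ![m, 1 - 2 * m, m] (fun s => mu p (a s))
    (fun s => mu p (b s)) (by intro s; fin_cases s; exacts [m0, m1, m0]) (by simp [Fin.sum_univ_three]; ring)
    (fun s => mu_nonneg hp _) (fun s => mu_nonneg hp _)
  have eA : ∑ s, ![m, 1 - 2 * m, m] s * mu p (a s) = mu p A := by
    rw [mu_split p A i, hm (fun u => mu p fun x => A (update x i u)), ← mu_or_and]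
    simp [Fin.sum_univ_three, a]; ring
  have eB : ∑ s, ![m, 1 - 2 * m, m] s * mu p (b s) = mu p B := by
    rw [mu_split p B i, hm (fun u => mu p fun x => B (update x i u)), ← mu_or_and]
    simp [Fin.sum_univ_three, b]; ring
  rw [eA, eB] at hle
  rcases le_total s s' with h | h
  · exact key s s' θ h t0 t1 hle
  · exact key s' s (1 - θ) h (by linarith) (by linarith) (hle.trans (le_of_eq (by ring)))

lemma compress {d : ℕ} {p : Fin r → ℝ} (hp : Ok p) {A B : C r → Prop} (hs : Sep d A B) :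
    ∃ (p' : Fin r → ℝ) (A' B' : C r → Prop), Ok p' ∧ Sep d A' B' ∧
      mu p A * mu p B ≤ mu p' A' * mu p' B' ∧ ∀ i, DownAt i A' ∧ UpAt i B' := by
  have : ∀ S : Finset (Fin r), ∃ (p' : Fin r → ℝ) (A' B' : C r → Prop), Ok p' ∧ Sep d A' B' ∧
      mu p A * mu p B ≤ mu p' A' * mu p' B' ∧ ∀ i ∈ S, DownAt i A' ∧ UpAt i B' := by
    intro S
    induction S using Finset.induction_on with
    | empty => exact ⟨p, A, B, hp, hs, le_rfl, by simp⟩
    | insert i S _ ih =>
      obtain ⟨p1, A1, B1, h1, h2, h3, h4⟩ := ih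
      obtain ⟨p2, A2, B2, g1, g2, g3, g4, g5, g6⟩ := compress1 h1 h2 i
      refine ⟨p2, A2, B2, g1, g2, h3.trans g3, fun j hj => ?_⟩
      by_cases hji : j = i
      · subst hji; exact ⟨g4, g5⟩
      · have hj' := (mem_insert.1 hj).resolve_left hji
        exact ⟨(g6 j hji).1 (h4 j hj').1, (g6 j hji).2 (h4 j hj').2⟩
  obtain ⟨p', A', B', h1, h2, h3, h4⟩ := this univ
  exact ⟨p', A', B', h1, h2, h3, fun i => h4 i (mem_univ i)⟩

end cube
end
end Pool.Agent.H.Cube
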