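import Pool.Agent.H.MP_e859cd_co.B

set_option autoImplicit false
open Finset Function

namespace Pool.Agent.H.Cube
noncomputable section
open Classical

section two
variable {r : ℕ} {i j : Fin r}

def up2 (i j : Fin r) (x : C r) (u v : Bool) : C r := update (update x j v) i u

lemma up2_i (x : C r) (u v : Bool) : up2 i j x u v i = u := by simp [up2]
lemma up2_j (h : i ≠ j) (x : C r) (u v : Bool) : up2 i j x u v j = v := by simp [up2, h.symm]
lemma up2_k (x : C r) (u v : Bool) {k : Fin r} (hi : k ≠ i) (hj : k ≠ j) :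
    up2 i j x u v k = x k := by simp [up2, hi, hj]
lemma up2_up2 (h : i ≠ j) (x : C r) (u v u' v' : Bool) :
    up2 i j (up2 i j x u v) u' v' = up2 i j x u' v' := by
  funext k
  by_cases hi : k = i
  · subst hi; simp [up2_i]
  by_cases hj : k = j
  · subst hj; simp [up2_j h]
  simp [up2_k _ _ _ hi hj]
lemma up2_self (x : C r) : up2 i j x (x i) (x j) = x := by simp [up2]

def D (i j : Fin r) (x y : C r) : ℕ := ∑ k ∈ (univ.erase i).erase j, ne1 (x k) (y k)

lemma hd2' (h : i ≠ j) (x y : C r) :
    hd x y = D i j x y + ne1 (x i) (y i) + ne1 (x j) (y j) := by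
  unfold hd D
  rw [← add_sum_erase _ _ (mem_univ i), ← add_sum_erase _ _ (mem_erase.2 ⟨h.symm, mem_univ j⟩)]
  ring

lemma hd2 (h : i ≠ j) (x y : C r) (u v u' v' : Bool) :
    hd (up2 i j x u v) (up2 i j y u' v') = D i j x y + ne1 u u' + ne1 v v' := by
  rw [hd2' h, up2_i, up2_i, up2_j h, up2_j h]
  congr 2
  refine sum_congr rfl fun k hk => ?_
  have h1 := (mem_erase.1 hk).1
  have h2 := (mem_erase.1 (mem_erase.1 hk).2).1
  rw [up2_k _ _ _ h2 h1, up2_k _ _ _ h2 h1]

def sl (i j : Fin r) (p : Fin r → ℝ) (A : C r → Prop) (u v : Bool) : ℝ :=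
  mu p fun x => A (up2 i j x u v)

lemma mu_bil (p : Fin r → ℝ) (A : C r → Prop) :
    mu p A = bil (sl i j p A false false) (sl i j p A false true) (sl i j p A true false)
      (sl i j p A true true) (p i) (p j) := by
  rw [mu_split p A i, mu_split p (fun x => A (update x i false)) j,
    mu_split p (fun x => A (update x i true)) j]
  rfl

lemma sl_indep (h : i ≠ j) (p : Fin r → ℝ) (A : C r → Prop) (s t : ℝ) (u v : Bool) :
    sl i j (update (update p i s) j t) A u v = sl i j p A u v := by
  unfold sl up2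
  rw [mu_indep (update p i s) (fun x => A (update x i u)) j t v]
  simp only [update_comm h.symm]
  exact mu_indep p (fun x => A (update x j v)) i s u

lemma mu_bil' (h : i ≠ j) (p : Fin r → ℝ) (A : C r → Prop) (s t : ℝ) :
    mu (update (update p i s) j t) A = bil (sl i j p A false false) (sl i j p A false true)
      (sl i j p A true false) (sl i j p A true true) s t := by
  rw [mu_bil (i := i) (j := j)]
  simp only [sl_indep h, update_self, update_of_ne h]

@[simp] lemma ne1_ft : ne1 false true = 1 := ne1_ne (by simp)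
@[simp] lemma ne1_tf : ne1 true false = 1 := ne1_ne (by simp)

lemma sep_pull (h : i ≠ j) {d : ℕ} {A B : C r → Prop} (hs : Sep d A B) (f g : Bool → Bool → Bool)
    (hfg : ∀ u v u' v', ne1 (f u v) (f u' v') + ne1 (g u v) (g u' v') ≤ ne1 u u' + ne1 v v') :
    Sep d (fun x => A (up2 i j x (f (x i) (x j)) (g (x i) (x j))))
      (fun x => B (up2 i j x (f (x i) (x j)) (g (x i) (x j)))) := by
  intro x y hx hy
  have := hs _ _ hx hy
  rw [hd2 h] at this
  rw [hd2' h]
  have := hfg (x i) (x j) (y i) (y j)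
  omega

lemma sl_pull (h : i ≠ j) (p : Fin r → ℝ) (A : C r → Prop) (f g : Bool → Bool → Bool)
    (u v : Bool) : sl i j p (fun x => A (up2 i j x (f (x i) (x j)) (g (x i) (x j)))) u v =
      sl i j p A (f u v) (g u v) := by
  unfold sl
  simp only [up2_i, up2_j h, up2_up2 h]

lemma two_app (h : i ≠ j) {d : ℕ} {p : Fin r → ℝ} (hp : ∀ k, 0 < p k ∧ p k < 1)
    {A B : C r → Prop} (hs : Sep d A B) (hM : Bound r d (mu p A * mu p B))
    (hpos : 0 < mu p A * mu p B)
    (hb : ∀ p', Ok p' → (p' i = 0 ∨ p' j = 1) → mu p' A * mu p' B < mu p A * mu p B)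
    (a1 : ∀ x, A (up2 i j x false true) → A (up2 i j x false false))
    (a2 : ∀ x, A (up2 i j x true false) → A (up2 i j x false false))
    (a3 : ∀ x, A (up2 i j x true true) → A (up2 i j x false true))
    (a4 : ∀ x, A (up2 i j x true true) → A (up2 i j x true false))
    (b1 : ∀ x, B (up2 i j x false false) → B (up2 i j x false true))
    (b2 : ∀ x, B (up2 i j x false false) → B (up2 i j x true false))
    (b3 : ∀ x, B (up2 i j x false true) → B (up2 i j x true true))
    (b4 : ∀ x, B (up2 i j x true false) → B (up2 i j x true true)) :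
    p i = p j ∧ sl i j p A false true = sl i j p A true false := by
  have ok : Ok p := fun k => ⟨(hp k).1.le, (hp k).2.le⟩
  have hA : 0 < mu p A := lt_of_le_of_ne (mu_nonneg ok A) fun e => by simp [← e] at hpos
  have hB : 0 < mu p B := lt_of_le_of_ne (mu_nonneg ok B) fun e => by simp [← e] at hpos
  have eA := mu_bil (i := i) (j := j) p A
  have eB := mu_bil (i := i) (j := j) p B
  have ok2 : ∀ s t, 0 ≤ s → s ≤ 1 → 0 ≤ t → t ≤ 1 → Ok (update (update p i s) j t) :=
    fun s t s0 s1 t0 t1 => ok_update (ok_update ok i s0 s1) j t0 t1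
  have := two (hp i).1 (hp i).2 (hp j).1 (hp j).2 (mu_mono ok a1) (mu_mono ok a2) (mu_mono ok a3)
    (mu_mono ok a4) (mu_mono ok b1) (mu_mono ok b2) (mu_mono ok b3) (mu_mono ok b4)
    (by rw [eA] at hA; exact hA) (by rw [eB] at hB; exact hB)
    (fun s t s0 s1 t0 t1 => by
      have := hM _ A B (ok2 s t s0 s1 t0 t1) hs
      rw [mu_bil' h, mu_bil' h, eA, eB] at this
      exact this)
    (fun s s0 s1 => by
      have := hM _ _ _ (ok2 s s s0 s1 s0 s1) (sep_pull h hs (fun u v => u && v) (fun u v => u || v)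
        (by intro u v u' v'; cases u <;> cases v <;> cases u' <;> cases v' <;> simp))
      rw [mu_bil' h, mu_bil' h, eA, eB] at this
      simp only [sl_pull h p A (fun u v => u && v) (fun u v => u || v),
        sl_pull h p B (fun u v => u && v) (fun u v => u || v)] at this
      exact this)
    (fun s s0 s1 => by
      have := hM _ _ _ (ok2 s s s0 s1 s0 s1) (sep_pull h hs (fun u v => u || v) (fun u v => u && v)
        (by intro u v u' v'; cases u <;> cases v <;> cases u' <;> cases v' <;> simp))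
      rw [mu_bil' h, mu_bil' h, eA, eB] at this
      simp only [sl_pull h p A (fun u v => u || v) (fun u v => u && v),
        sl_pull h p B (fun u v => u || v) (fun u v => u && v)] at this
      exact this)
    (fun t t0 t1 => by
      have := hb _ (ok2 0 t le_rfl zero_le_one t0 t1) (Or.inl (by simp [h]))
      rw [mu_bil' h, mu_bil' h, eA, eB] at this
      exact this)
    (fun s s0 s1 => by
      have := hb _ (ok2 s 1 s0 s1 zero_le_one le_rfl) (Or.inr (by simp))
      rw [mu_bil' h, mu_bil' h, eA, eB] at this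
      exact this)
  exact ⟨this.1, this.2.1⟩

lemma down_i {A : C r → Prop} (hA : DownAt i A) (x : C r) (v : Bool) :
    A (up2 i j x true v) → A (up2 i j x false v) := hA _
lemma down_j (h : i ≠ j) {A : C r → Prop} (hA : DownAt j A) (x : C r) (u : Bool) :
    A (up2 i j x u true) → A (up2 i j x u false) := by
  unfold up2; rw [update_comm h.symm, update_comm h.symm]; exact hA _
lemma up_i {A : C r → Prop} (hA : UpAt i A) (x : C r) (v : Bool) :
    A (up2 i j x false v) → A (up2 i j x true v) := hA _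
lemma up_j (h : i ≠ j) {A : C r → Prop} (hA : UpAt j A) (x : C r) (u : Bool) :
    A (up2 i j x u false) → A (up2 i j x u true) := by
  unfold up2; rw [update_comm h.symm, update_comm h.symm]; exact hA _

/-- the shift of a family -/
def sh (i j : Fin r) (A : C r → Prop) (e : Bool) (x : C r) : Prop :=
  if x i = x j then A x else if x j = e then A (up2 i j x false true) ∨ A (up2 i j x true false)
    else A (up2 i j x false true) ∧ A (up2 i j x true false)

lemma sh_eq (h : i ≠ j) (A : C r → Prop) (e : Bool) (x : C r) (u v : Bool) :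
    sh i j A e (up2 i j x u v) = if u = v then A (up2 i j x u v) else if v = e then
      A (up2 i j x false true) ∨ A (up2 i j x true false)
    else A (up2 i j x false true) ∧ A (up2 i j x true false) := by
  simp only [sh, up2_i, up2_j h, up2_up2 h]

lemma sep_sh (h : i ≠ j) {d : ℕ} {A B : C r → Prop} (hs : Sep d A B) :
    Sep d (sh i j A true) (sh i j B false) := by
  have key : ∀ x y u v u' v', A (up2 i j x u v) → B (up2 i j y u' v') →
      d ≤ D i j x y + ne1 u u' + ne1 v v' := fun x y u v u' v' hx hy => by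
    rw [← hd2 h]; exact hs _ _ hx hy
  intro x y hx hy
  rw [← up2_self (i := i) (j := j) x, sh_eq h] at hx
  rw [← up2_self (i := i) (j := j) y, sh_eq h] at hy
  rw [hd2' h]
  have k1 := key x y false true
  have k2 := key x y true false
  have k3 := key x y false false
  have k4 := key x y true true
  generalize x i = u at *
  generalize x j = v at *
  generalize y i = u' at *
  generalize y j = v' at *
  cases u <;> cases v <;> cases u' <;> cases v' <;> simp at hx hy ⊢ <;>
    first
    | (simpa using key _ _ _ _ _ _ hx hy)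
    | (rcases hy with hy | hy <;> simpa using key _ _ _ _ _ _ hx hy)
    | (rcases hx with hx | hx <;> simpa using key _ _ _ _ _ _ hx hy)
    | (simpa using key _ _ _ _ _ _ hx hy.1)
    | (simpa using key _ _ _ _ _ _ hx.1 hy)
    | (have := key _ _ _ _ _ _ hx.1 hy.1; simp at this; omega)
    | (rcases hx with hx | hx
       · have := key _ _ _ _ _ _ hx hy.1; simp at this; omega
       · have := key _ _ _ _ _ _ hx hy.2; simp at this; omega)
    | (rcases hy with hy | hy
       · have := key _ _ _ _ _ _ hx.1 hy; simp at this; omega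
       · have := key _ _ _ _ _ _ hx.2 hy; simp at this; omega)
    | (rcases hx with hx | hx <;> rcases hy with hy | hy <;>
        (have := key _ _ _ _ _ _ hx hy; simp at this; omega))

lemma mu_sh (h : i ≠ j) (p : Fin r → ℝ) (s : ℝ) (A : C r → Prop) (e : Bool) (hi : p i = s)
    (hj : p j = s) : mu p (sh i j A e) = mu p A := by
  rw [mu_bil (i := i) (j := j) p, mu_bil (i := i) (j := j) p A, hi, hj]
  have := mu_or_and p (fun x => A (up2 i j x false true)) (fun x => A (up2 i j x true false))
  cases e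
  · simp only [sl, sh_eq h, bil]
    simp
    linear_combination (s * (1 - s)) * this
  · simp only [sl, sh_eq h, bil]
    simp
    linear_combination (s * (1 - s)) * this

lemma symm_of_max (h : i ≠ j) {d : ℕ} {p : Fin r → ℝ} (hp : ∀ k, 0 < p k ∧ p k < 1)
    {A B : C r → Prop} (hs : Sep d A B) (hM : Bound r d (mu p A * mu p B))
    (hpos : 0 < mu p A * mu p B)
    (hb : ∀ p' A' B', Ok p' → Sep d A' B' → (p' i = 0 ∨ p' j = 1) →
      mu p' A' * mu p' B' < mu p A * mu p B)
    (hm : ∀ k, DownAt k A ∧ UpAt k B) :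
    p i = p j ∧ ∀ x, A (up2 i j x false true) → A (up2 i j x true false) := by
  have e := (two_app h hp hs hM hpos (fun p' h1 h2 => hb p' A B h1 hs h2)
    (fun x => down_j h (hm j).1 x _) (fun x => down_i (hm i).1 x _)
    (fun x => down_i (hm i).1 x _) (fun x => down_j h (hm j).1 x _)
    (fun x => up_j h (hm j).2 x _) (fun x => up_i (hm i).2 x _)
    (fun x => up_i (hm i).2 x _) (fun x => up_j h (hm j).2 x _)).1
  refine ⟨e, ?_⟩
  have eA := mu_sh h p _ A true e rfl
  have eB := mu_sh h p _ B false e rfl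
  have d1 := fun x u => down_j h (hm j).1 x u
  have d2 := fun x u => down_i (j := j) (hm i).1 x u
  have u1 := fun x u => up_j h (hm j).2 x u
  have u2 := fun x u => up_i (j := j) (hm i).2 x u
  have e2 := (two_app h hp (sep_sh h hs) (by rw [eA, eB]; exact hM) (by rw [eA, eB]; exact hpos)
    (fun p' h1 h2 => by rw [eA, eB]; exact hb p' _ _ h1 (sep_sh h hs) h2)
    (fun x => by simp only [sh_eq h]; simp; exact fun a => a.elim (d1 x _) (d2 x _))
    (fun x => by simp only [sh_eq h]; simp; exact fun a _ => d1 x _ a)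
    (fun x => by simp only [sh_eq h]; simp; exact fun a => Or.inl (d2 x _ a))
    (fun x => by simp only [sh_eq h]; simp; exact fun a => ⟨d2 x _ a, d1 x _ a⟩)
    (fun x => by simp only [sh_eq h]; simp; exact fun a => ⟨u1 x _ a, u2 x _ a⟩)
    (fun x => by simp only [sh_eq h]; simp; exact fun a => Or.inl (u1 x _ a))
    (fun x => by simp only [sh_eq h]; simp; exact fun a _ => u2 x _ a)
    (fun x => by simp only [sh_eq h]; simp; exact fun a => a.elim (u2 x _) (u1 x _))).2
  simp only [sl, sh_eq h] at e2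
  simp at e2
  intro x hx
  have := EW_eq (w_pos hp) (f := fun x => ind (A (up2 i j x false true) ∧ A (up2 i j x true false)))
    (g := fun x => ind (A (up2 i j x false true) ∨ A (up2 i j x true false)))
    (fun x => ind_mono fun a => Or.inl a.1) e2.symm x
  by_contra hn
  simp [ind, hx, hn] at this

end two

section wt
variable {r : ℕ}

def wt (x : C r) : ℕ := ∑ k, if x k then 1 else 0

lemma wt_le (x : C r) : wt x ≤ r := by
  unfold wt
  calc _ ≤ ∑ _k : Fin r, 1 := sum_le_sum fun k _ => by split_ifs <;> simp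
    _ = r := by simp

lemma wt_le_hd (x y : C r) : wt y ≤ wt x + hd x y := by
  unfold wt hd
  rw [← sum_add_distrib]
  exact sum_le_sum fun k _ => by cases x k <;> cases y k <;> simp

lemma wt2 {i j : Fin r} (h : i ≠ j) (x : C r) : wt x = ∑ k ∈ (univ.erase i).erase j,
    (if x k then 1 else 0) + (if x i then 1 else 0) + (if x j then 1 else 0) := by
  unfold wt
  rw [← add_sum_erase _ _ (mem_univ i), ← add_sum_erase _ _ (mem_erase.2 ⟨h.symm, mem_univ j⟩)]
  ring

lemma fill {A : C r → Prop} (hd1 : ∀ k, DownAt k A)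
    (hsy : ∀ i j, i ≠ j → ∀ x, A (up2 i j x false true) → A (up2 i j x true false)) (y : C r) :
    ∀ n x, hd x y = n → A x → wt y ≤ wt x → A y := by
  intro n
  induction n using Nat.strong_induction_on with
  | _ n ih =>
    intro x hn hx hw
    by_cases hxy : x = y
    · exact hxy ▸ hx
    by_cases hi : ∃ i, x i = false ∧ y i = true
    · obtain ⟨i, hi1, hi2⟩ := hi
      obtain ⟨j, hj1, hj2⟩ : ∃ j, x j = true ∧ y j = false := by
        by_contra hc
        push Not at hc
        refine absurd hw (not_le.2 (sum_lt_sum (fun k _ => ?_) ⟨i, mem_univ i, by simp [hi1, hi2]⟩))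
        have := hc k
        cases h1 : x k <;> cases h2 : y k <;> simp_all
      have hij : i ≠ j := fun e => by subst e; simp [hi1] at hj1
      have ex : x = up2 i j x false true := by rw [← hi1, ← hj1, up2_self]
      have ey : y = up2 i j y true false := by rw [← hi2, ← hj2, up2_self]
      refine ih (hd (up2 i j x true false) y) ?_ _ rfl (hsy i j hij x (ex ▸ hx)) ?_
      · rw [← hn, hd2' hij x, hi1, hi2, hj1, hj2, ey, hd2 hij, ← ey]
        simp
      · refine hw.trans (le_of_eq ?_)
        rw [wt2 hij, wt2 hij (up2 i j x true false), up2_i, up2_j hij, hi1, hj1]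
        simp only [Bool.false_eq_true, if_false, if_true, add_zero]
        congr 1
        refine sum_congr rfl fun k hk => ?_
        rw [up2_k _ _ _ (mem_erase.1 (mem_erase.1 hk).2).1 (mem_erase.1 hk).1]
    · push Not at hi
      obtain ⟨j, hj⟩ := Function.ne_iff.1 hxy
      have hj1 : x j = true := by
        have := hi j
        cases h1 : x j <;> cases h2 : y j <;> simp_all
      have hj2 : y j = false := by
        cases h2 : y j <;> simp_all
      refine ih (hd (update x j false) y) ?_ _ rfl (hd1 j x (by rw [← hj1]; simpa using hx)) ?_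
      · rw [← hn]
        refine sum_lt_sum (fun k _ => ?_) ⟨j, mem_univ j, by simp [hj1, hj2]⟩
        by_cases hk : k = j
        · subst hk; simp [hj2]
        · simp [hk]
      · refine sum_le_sum fun k _ => ?_
        by_cases hk : k = j
        · subst hk; simp [hj2]
        · have := hi k
          simp only [update_of_ne hk]
          cases h1 : x k <;> cases h2 : y k <;> simp_all

lemma exists_below (y : C r) (a : ℕ) : ∃ z : C r, wt z ≤ a ∧ hd z y ≤ wt y - a := by
  have hw : ∀ x : C r, wt x = (univ.filter fun k => x k = true).card := fun x => by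
    rw [card_filter]; rfl
  obtain ⟨S, hS, hc⟩ := exists_subset_card_eq (s := univ.filter fun k => y k = true)
    (n := min a (wt y)) (by rw [← hw]; exact min_le_right _ _)
  refine ⟨fun k => decide (k ∈ S), ?_, ?_⟩
  · rw [hw]
    simp [hc]
  · have : hd (fun k => decide (k ∈ S)) y + S.card = wt y := by
      have e : S.card = ∑ k, if k ∈ S then 1 else 0 := by simp
      unfold hd wt
      rw [e, ← sum_add_distrib]
      refine sum_congr rfl fun k _ => ?_
      by_cases hk : k ∈ S
      · have := (mem_filter.1 (hS hk)).2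
        simp [hk, this]
      · cases y k <;> simp [hk]
    omega

lemma wt_ins (i : Fin (r + 1)) (b : Bool) (z : C r) :
    wt (i.insertNth b z : C (r + 1)) = wt z + if b then 1 else 0 := by
  unfold wt
  rw [Fin.sum_univ_succAbove _ i]
  simp [add_comm]

lemma sep_ball (r a d : ℕ) : Sep d (fun x : C r => wt x ≤ a) (fun x => a + d ≤ wt x) := by
  intro x y hx hy
  have := wt_le_hd x y
  omega

/-- weight-level measure -/
def Bn (p : Fin r → ℝ) (P : ℕ → Prop) : ℝ := mu p fun x => P (wt x)

lemma Bn_cons (s : ℝ) (p : Fin r → ℝ) (P : ℕ → Prop) :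
    Bn (Fin.cons s p : Fin (r + 1) → ℝ) P = (1 - s) * Bn p P + s * Bn p (fun k => P (k + 1)) := by
  unfold Bn mu
  rw [EW_ins _ _ 0]
  simp only [wt_ins]
  simp [add_comm]

lemma const_cons (q : ℝ) : (fun _ : Fin (r + 1) => q) = Fin.cons q (fun _ => q) := by
  funext k; refine Fin.cases rfl (fun _ => rfl) k

lemma Bn_false (p : Fin r → ℝ) {P : ℕ → Prop} (h : ∀ k, ¬ P k) : Bn p P = 0 := by
  simp [Bn, mu, EW, ind, h]

lemma Bn_eq (q : ℝ) : ∀ (N k : ℕ), Bn (fun _ : Fin N => q) (fun m => m = k) =
    (N.choose k) * (q ^ k * (1 - q) ^ (N - k)) := by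
  intro N
  induction N with
  | zero =>
    intro k
    cases k <;> simp [Bn, mu, EW, ind, wt]
  | succ N ih =>
    intro k
    rw [const_cons, Bn_cons, ih]
    cases k with
    | zero => rw [Bn_false _ (by simp)]; simp [pow_succ]; ring
    | succ k =>
      simp only [add_left_inj]
      rw [ih, Nat.choose_succ_succ', Nat.add_sub_add_right]
      rcases lt_or_ge k N with h | h
      · obtain ⟨m, rfl⟩ := Nat.exists_eq_add_of_lt h
        rw [show k + m + 1 - (k + 1) = m by omega, show k + m + 1 - k = m + 1 by omega]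
        push_cast; ring
      · rw [Nat.choose_eq_zero_of_lt (by omega : N < k + 1)]
        push_cast; ring

lemma Bn_add (p : Fin r → ℝ) {P Q R : ℕ → Prop} (h : ∀ k, ind (P k) = ind (Q k) + ind (R k)) :
    Bn p P = Bn p Q + Bn p R := by
  unfold Bn mu
  rw [← EW_add]
  simp only [h]

/-- product for the pair of balls -/
def Ball (r d a : ℕ) (q : ℝ) : ℝ :=
  Bn (fun _ : Fin r => q) (fun k => k ≤ a) * Bn (fun _ : Fin r => q) (fun k => a + d ≤ k)

lemma choose_lc {N a e : ℕ} (h : a + e + 2 ≤ N) :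
    N.choose a * N.choose (a + e + 2) < N.choose (a + e + 1) * N.choose (a + 1) := by
  have h1 := Nat.choose_succ_right_eq N a
  have h2 := Nat.choose_succ_right_eq N (a + e + 1)
  have p1 : 0 < N.choose a := Nat.choose_pos (by omega)
  have p2 : 0 < N.choose (a + e + 1) := Nat.choose_pos (by omega)
  have h3 : (N - (a + e + 1)) * (a + 1) < (N - a) * (a + e + 1 + 1) :=
    Nat.mul_lt_mul_of_le_of_lt (by omega) (by omega) (by omega)
  have h4 : N.choose a * N.choose (a + e + 2) * ((a + 1) * (a + e + 1 + 1)) <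
      N.choose (a + e + 1) * N.choose (a + 1) * ((a + 1) * (a + e + 1 + 1)) := by
    calc _ = N.choose a * (N.choose (a + e + 1 + 1) * (a + e + 1 + 1)) * (a + 1) := by ring
      _ = (N.choose a * N.choose (a + e + 1)) * ((N - (a + e + 1)) * (a + 1)) := by rw [h2]; ring
      _ < (N.choose a * N.choose (a + e + 1)) * ((N - a) * (a + e + 1 + 1)) :=
        Nat.mul_lt_mul_of_pos_left h3 (Nat.mul_pos p1 p2)
      _ = N.choose (a + e + 1) * (N.choose a * (N - a)) * (a + e + 1 + 1) := by ring
      _ = _ := by rw [← h1]; ring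
  exact Nat.lt_of_mul_lt_mul_right h4

lemma improve {N e a : ℕ} {q : ℝ} (q0 : 0 < q) (q1 : q < 1) (ha : a + (e + 2) ≤ N + 1)
    (hM : Bound (N + 1) (e + 2) (Ball (N + 1) (e + 2) a q)) :
    ∃ (p : Fin (N + 2) → ℝ) (A B : C (N + 2) → Prop), Ok p ∧ Sep (e + 2) A B ∧
      Ball (N + 1) (e + 2) a q < mu p A * mu p B := by
  have okq : Ok (fun _ : Fin N => q) := fun _ => ⟨q0.le, q1.le⟩
  have okc : ∀ {n : ℕ} {p : Fin n → ℝ} {s : ℝ}, Ok p → 0 ≤ s → s ≤ 1 →
      Ok (Fin.cons s p : Fin (n + 1) → ℝ) := fun hp s0 s1 k =>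
    Fin.cases ⟨s0, s1⟩ (fun k => hp k) k
  obtain ⟨x0, hx0⟩ : ∃ x, x = Bn (fun _ : Fin N => q) (fun k => k ≤ a) := ⟨_, rfl⟩
  obtain ⟨x1, hx1⟩ : ∃ x, x = Bn (fun _ : Fin N => q) (fun k => k + 1 ≤ a) := ⟨_, rfl⟩
  obtain ⟨x2, hx2⟩ : ∃ x, x = Bn (fun _ : Fin N => q) (fun k => k + 1 + 1 ≤ a) := ⟨_, rfl⟩
  obtain ⟨y0, hy0⟩ : ∃ x, x = Bn (fun _ : Fin N => q) (fun k => a + (e + 2) ≤ k) := ⟨_, rfl⟩
  obtain ⟨y1, hy1⟩ : ∃ x, x = Bn (fun _ : Fin N => q) (fun k => a + (e + 2) ≤ k + 1) := ⟨_, rfl⟩
  obtain ⟨y2, hy2⟩ : ∃ x, x = Bn (fun _ : Fin N => q) (fun k => a + (e + 2) ≤ k + 1 + 1) :=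
    ⟨_, rfl⟩
  have P := Bn_eq q N
  have q1' : 0 < 1 - q := by linarith
  have Ppos : ∀ k, k ≤ N → 0 < Bn (fun _ : Fin N => q) (fun m => m = k) := fun k hk => by
    rw [P]; have := Nat.choose_pos hk; positivity
  have dx0 : x0 = x1 + Bn (fun _ : Fin N => q) (fun m => m = a) := by
    rw [hx0, hx1]; exact Bn_add _ fun k => by unfold ind; split_ifs <;> first | omega | simp
  have dx1 : x1 = x2 + Bn (fun _ : Fin N => q) (fun m => m + 1 = a) := by
    rw [hx1, hx2]; exact Bn_add _ fun k => by unfold ind; split_ifs <;> first | omega | simp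
  have dy1 : y1 = y0 + Bn (fun _ : Fin N => q) (fun m => m = a + e + 1) := by
    rw [hy1, hy0]; exact Bn_add _ fun k => by unfold ind; split_ifs <;> first | omega | simp
  have dy2 : y2 = y1 + Bn (fun _ : Fin N => q) (fun m => m = a + e) := by
    rw [hy2, hy1]; exact Bn_add _ fun k => by unfold ind; split_ifs <;> first | omega | simp
  have lc : Bn (fun _ : Fin N => q) (fun m => m + 1 = a) * Bn (fun _ : Fin N => q)
      (fun m => m = a + e + 1) < Bn (fun _ : Fin N => q) (fun m => m = a + e) *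
      Bn (fun _ : Fin N => q) (fun m => m = a) := by
    cases a with
    | zero =>
      rw [Bn_false _ (by simp), zero_mul]
      exact mul_pos (Ppos _ (by omega)) (Ppos _ (by omega))
    | succ a =>
      simp only [add_left_inj]
      rw [P, P, P, P]
      obtain ⟨m, rfl⟩ : ∃ m, N = a + e + 2 + m := ⟨N - (a + e + 2), by omega⟩
      have := choose_lc (N := a + e + 2 + m) (a := a) (e := e) (by omega)
      rw [show a + 1 + e + 1 = a + e + 2 by ring, show a + 1 + e = a + e + 1 by ring,
        show a + e + 2 + m - a = e + 2 + m by omega, show a + e + 2 + m - (a + e + 2) = m by omega,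
        show a + e + 2 + m - (a + e + 1) = m + 1 by omega,
        show a + e + 2 + m - (a + 1) = e + 1 + m by omega]
      have h' : (((a + e + 2 + m).choose a : ℝ) * ((a + e + 2 + m).choose (a + e + 2))) <
        ((a + e + 2 + m).choose (a + e + 1)) * ((a + e + 2 + m).choose (a + 1)) := by
        exact_mod_cast this
      have := mul_lt_mul_of_pos_right h'
        (by positivity : 0 < q ^ (2 * a + e + 2) * (1 - q) ^ (e + 2 + 2 * m))
      refine lt_of_eq_of_lt ?_ (this.trans_eq ?_) <;> ring
  have pa := Ppos a (by omega)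
  have pc := Ppos (a + e + 1) (by omega)
  generalize Bn (fun _ : Fin N => q) (fun m => m = a) = α0 at *
  generalize Bn (fun _ : Fin N => q) (fun m => m + 1 = a) = α1 at *
  generalize Bn (fun _ : Fin N => q) (fun m => m = a + e + 1) = β0 at *
  generalize Bn (fun _ : Fin N => q) (fun m => m = a + e) = β1 at *
  have nx1 : 0 ≤ x1 := hx1 ▸ mu_nonneg okq _
  have ny0 : 0 ≤ y0 := hy0 ▸ mu_nonneg okq _
  obtain ⟨X, hX⟩ : ∃ X, X = (1 - q) * x0 + q * x1 := ⟨_, rfl⟩
  obtain ⟨Y, hY⟩ : ∃ Y, Y = (1 - q) * y0 + q * y1 := ⟨_, rfl⟩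
  have eB : Ball (N + 1) (e + 2) a q = X * Y := by
    rw [Ball, const_cons, Bn_cons, Bn_cons, hX, hY, hx0, hx1, hy0, hy1]
  have Xpos : 0 < X := by rw [hX, dx0]; positivity
  have Ypos : 0 < Y := by rw [hY, dy1]; positivity
  have cr := crit (X0 := X) (Y0 := Y) (a := -α0) (b := β0) q0 q1 (fun s s0 s1 => by
    have := hM _ _ _ (okc okq s0 s1) (sep_ball (N + 1) a (e + 2))
    change Bn _ (fun k => k ≤ a) * Bn _ (fun k => a + (e + 2) ≤ k) ≤ _ at this
    rw [Bn_cons, Bn_cons, eB, ← hx0, ← hx1, ← hy0, ← hy1] at this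
    refine le_of_eq_of_le ?_ this
    rw [hX, hY, dx0, dy1]; ring)
  have hD : 0 < Y * (α0 - α1) + X * (β1 - β0) := by
    have h1 : 0 < X * (β1 * α0 - α1 * β0) := mul_pos Xpos (by linarith)
    have h2 : α0 * (Y * (α0 - α1) + X * (β1 - β0)) = X * (β1 * α0 - α1 * β0) := by
      linear_combination (α1 - α0) * cr
    rw [← h2] at h1
    exact (mul_pos_iff_of_pos_left pa).1 h1
  obtain ⟨ε, e0, e1, e2⟩ : ∃ ε, 0 < ε ∧ ε < q ∧ 0 < Y * (α0 - α1) + X * (β1 - β0) +
      ε * (q - ε) * ((α0 - α1) * (β1 - β0)) := by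
    have hc : Continuous fun ε : ℝ => Y * (α0 - α1) + X * (β1 - β0) +
      ε * (q - ε) * ((α0 - α1) * (β1 - β0)) := by fun_prop
    have h1 : ∀ᶠ ε in nhds (0 : ℝ), 0 < Y * (α0 - α1) + X * (β1 - β0) +
      ε * (q - ε) * ((α0 - α1) * (β1 - β0)) := hc.continuousAt.eventually (lt_mem_nhds (by simpa))
    have h2 : ∀ᶠ ε in nhds (0 : ℝ), ε < q := gt_mem_nhds q0
    obtain ⟨ε, h3, h4⟩ := (((h2.and h1).filter_mono nhdsWithin_le_nhds).and
      (self_mem_nhdsWithin (s := Set.Ioi (0 : ℝ)))).exists
    exact ⟨ε, h4, h3.1, h3.2⟩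
  refine ⟨Fin.cons ε (Fin.cons (q - ε) (fun _ => q)), _, _,
    okc (okc okq (by linarith) (by linarith)) e0.le (by linarith), sep_ball (N + 2) a (e + 2), ?_⟩
  change _ < Bn _ (fun k => k ≤ a) * Bn _ (fun k => a + (e + 2) ≤ k)
  rw [Bn_cons, Bn_cons, Bn_cons, Bn_cons, Bn_cons, Bn_cons, eB, ← hx0, ← hx1, ← hx2, ← hy0, ← hy1,
    ← hy2]
  have e3 : 0 < ε * (q - ε) := mul_pos e0 (by linarith)
  have := mul_pos e3 e2
  have f1 : (1 - ε) * ((1 - (q - ε)) * x0 + (q - ε) * x1) + ε * ((1 - (q - ε)) * x1 + (q - ε) * x2)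
      = X + ε * (q - ε) * (α0 - α1) := by rw [hX, dx0, dx1]; ring
  have f2 : (1 - ε) * ((1 - (q - ε)) * y0 + (q - ε) * y1) + ε * ((1 - (q - ε)) * y1 + (q - ε) * y2)
      = Y + ε * (q - ε) * (β1 - β0) := by rw [hY, dy2, dy1]; ring
  rw [f1, f2]
  linarith

lemma step {N d : ℕ} {M : ℝ} (hd0 : 0 < d) (hM0 : 0 ≤ M) (hM : Bound (N + 1) d M)
    (hex : ∃ (p : Fin (N + 2) → ℝ) (A B : C (N + 2) → Prop), Ok p ∧ Sep d A B ∧
      M < mu p A * mu p B) :
    ∃ (a : ℕ) (q : ℝ), a + d ≤ N + 2 ∧ 0 < q ∧ q < 1 ∧ Bound (N + 2) d (Ball (N + 2) d a q) := by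
  obtain ⟨p0, A0, B0, h1, h2, h3⟩ := exists_max (N + 2) d
  obtain ⟨p, A, B, ok, hs, hle, hm⟩ := compress h1 h2
  have hB : Bound (N + 2) d (mu p A * mu p B) := fun p' A' B' a b => (h3 p' A' B' a b).trans hle
  obtain ⟨p1, A1, B1, g1, g2, g3⟩ := hex
  have hlt : M < mu p A * mu p B := g3.trans_le (hB _ _ _ g1 g2)
  have hp : ∀ k, 0 < p k ∧ p k < 1 := fun k => by
    refine ⟨lt_of_le_of_ne (ok k).1 fun e => ?_, lt_of_le_of_ne (ok k).2 fun e => ?_⟩
    · exact absurd (boundary hM ok hs k (Or.inl e.symm)) (not_le.2 hlt)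
    · exact absurd (boundary hM ok hs k (Or.inr e)) (not_le.2 hlt)
  have hpos := hM0.trans_lt hlt
  have sy := fun i j (h : i ≠ j) => symm_of_max h hp hs hB hpos (fun p' A' B' a b c =>
    (c.elim (fun c => boundary hM a b i (Or.inl c)) (fun c => boundary hM a b j (Or.inr c))).trans_lt
      hlt) hm
  have hpc : p = fun _ => p 0 := by
    funext k
    by_cases hk : k = 0
    · rw [hk]
    · exact (sy k 0 hk).1
  have neA : (univ.filter A).Nonempty := by
    by_contra hc
    have : ∀ x, ¬ A x := fun x hx => hc ⟨x, by simpa using hx⟩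
    simp [mu, EW, ind, this] at hpos
  obtain ⟨y0, hy0⟩ : ∃ y, B y := by
    by_contra hc
    push Not at hc
    simp [mu, EW, ind, hc] at hpos
  obtain ⟨x0, hx0, hmax⟩ := exists_max_image _ wt neA
  have hx0' : A x0 := by simpa using hx0
  have hBw : ∀ y, B y → d ≤ wt y - wt x0 := by
    intro y hy
    obtain ⟨z, hz1, hz2⟩ := exists_below y (wt x0)
    exact (hs z y (fill (fun k => (hm k).1) (fun i j h => (sy i j h).2) z _ x0 rfl hx0' hz1)
      hy).trans hz2
  refine ⟨wt x0, p 0, ?_, (hp 0).1, (hp 0).2, fun p' A' B' a b => (hB p' A' B' a b).trans ?_⟩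
  · have := hBw y0 hy0
    have := wt_le y0
    omega
  · unfold Ball Bn
    rw [← hpc]
    refine mul_le_mul (mu_mono ok fun x hx => hmax x (by simpa using hx))
      (mu_mono ok fun y hy => ?_) (mu_nonneg ok _) (mu_nonneg ok _)
    have := hBw y hy
    omega

lemma ball_pos {r d a : ℕ} {q : ℝ} (ha : a + d ≤ r) (q0 : 0 < q) (q1 : q < 1) :
    0 < Ball r d a q := by
  refine mul_pos (EW_pos (w_pos fun _ => ⟨q0, q1⟩) (fun _ => ind_nonneg _) (fun _ => false) ?_)
    (EW_pos (w_pos fun _ => ⟨q0, q1⟩) (fun _ => ind_nonneg _) (fun _ => true) ?_)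
  · simp [ind, wt]
  · simp [ind, wt, ha]

theorem cube_main (e : ℕ) : ∀ m : ℕ, ∃ (a : ℕ) (q : ℝ), a + (e + 2) ≤ e + m + 2 ∧ 0 < q ∧ q < 1 ∧
    Bound (e + m + 2) (e + 2) (Ball (e + m + 2) (e + 2) a q) := by
  intro m
  induction m with
  | zero =>
    refine step (M := 0) (by omega) le_rfl ?_ ?_
    · intro p A B hp hs
      by_cases hA : ∃ x, A x
      · obtain ⟨x, hx⟩ := hA
        have hB : ∀ y, ¬ B y := fun y hy => by
          have h1 := hs x y hx hy
          have h2 : hd x y ≤ ∑ _k : Fin (e + 0 + 1), 1 :=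
            sum_le_sum fun k _ => by unfold ne1; split_ifs <;> simp
          simp at h2
          omega
        simp [mu, EW, ind, hB]
      · push Not at hA
        simp [mu, EW, ind, hA]
    · exact ⟨fun _ => 1 / 2, _, _, fun _ => by norm_num, sep_ball _ 0 _,
        ball_pos (by omega) (by norm_num) (by norm_num)⟩
  | succ m ih =>
    obtain ⟨a, q, ha, q0, q1, hB⟩ := ih
    exact step (N := e + m + 1) (by omega) (ball_pos ha q0 q1).le hB (improve q0 q1 ha hB)

/-- from the cube to an arbitrary alphabet -/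
lemma alphabet {Ω : Type} [Fintype Ω] {d : ℕ} {M : ℝ} (hM : Bound r d M) (W : Fin r → Ω → ℝ)
    (hW : ∀ i s, 0 ≤ W i s) (hW1 : ∀ i, ∑ s, W i s = 1) (A B : (Fin r → Ω) → Prop)
    (hs : Sep d A B) : EW W (fun x => ind (A x)) * EW W (fun x => ind (B x)) ≤ M := by
  have : ∀ S : Finset (Fin r), ∃ W' : Fin r → Ω → ℝ, (∀ i s, 0 ≤ W' i s) ∧ (∀ i, ∑ s, W' i s = 1) ∧
      EW W (fun x => ind (A x)) * EW W (fun x => ind (B x)) ≤
        EW W' (fun x => ind (A x)) * EW W' (fun x => ind (B x)) ∧
      ∀ i ∈ S, ∃ (φ : Bool → Ω) (θ : ℝ), 0 ≤ θ ∧ θ ≤ 1 ∧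
        ∀ u, W' i u = ∑ b, if u = φ b then w θ b else 0 := by
    intro S
    induction S using Finset.induction_on with
    | empty => exact ⟨W, hW, hW1, le_rfl, by simp⟩
    | insert i S _ ih =>
      obtain ⟨W1, h1, h2, h3, h4⟩ := ih
      obtain ⟨s, s', θ, t0, t1, hle⟩ := lp (W1 i) (fun s => EW W1 fun x => ind (A (update x i s)))
        (fun s => EW W1 fun x => ind (B (update x i s))) (h1 i) (h2 i)
        (fun s => EW_nonneg h1 fun _ => ind_nonneg _) (fun s => EW_nonneg h1 fun _ => ind_nonneg _)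
      rw [← EW_split W1 (fun x => ind (A x)) i (h2 i), ← EW_split W1 (fun x => ind (B x)) i (h2 i)]
        at hle
      let φ : Bool → Ω := fun b => if b then s' else s
      let v : Ω → ℝ := fun u => ∑ b, if u = φ b then w θ b else 0
      have hv : ∀ g : Ω → ℝ, ∑ u, v u * g u = (1 - θ) * g s + θ * g s' := by
        intro g
        simp only [v, sum_mul, ite_mul, zero_mul]
        rw [sum_comm]
        simp [φ, add_comm]
      have hv1 : ∑ u, v u = 1 := by simpa using hv fun _ => 1
      have hv1' : ∑ u, update W1 i v i u = 1 := by simpa using hv1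
      have e : ∀ f : (Fin r → Ω) → ℝ, EW (update W1 i v) f =
          (1 - θ) * EW W1 (fun x => f (update x i s)) + θ * EW W1 (fun x => f (update x i s')) := by
        intro f
        rw [EW_split _ f i hv1', ← hv (fun u => EW W1 (fun x => f (update x i u)))]
        refine sum_congr rfl fun u _ => ?_
        rw [update_self, EW_indep _ W1 f i hv1' (h2 i) (fun k hk => by simp [hk])]
      refine ⟨update W1 i v, fun k u => ?_, fun k => ?_, h3.trans ?_, fun k hk => ?_⟩
      · by_cases hk : k = i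
        · subst hk
          rw [update_self]
          refine sum_nonneg fun b _ => ?_
          split_ifs
          · cases b
            · simpa using t1
            · simpa using t0
          · exact le_rfl
        · simpa [hk] using h1 k u
      · by_cases hk : k = i
        · subst hk; exact hv1'
        · simpa [hk] using h2 k
      · rw [e, e]; exact hle
      · by_cases hki : k = i
        · subst hki
          exact ⟨φ, θ, t0, t1, fun u => by rw [update_self]⟩
        · simpa only [update_of_ne hki] using h4 k ((mem_insert.1 hk).resolve_left hki)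
  obtain ⟨W', -, -, h3, h4⟩ := this univ
  choose φ θ t0 t1 hφ using fun i => h4 i (mem_univ i)
  refine h3.trans ?_
  rw [EW_push W' (fun i => w (θ i)) φ hφ, EW_push W' (fun i => w (θ i)) φ hφ]
  refine hM θ (fun z => A fun i => φ i (z i)) (fun z => B fun i => φ i (z i))
    (fun i => ⟨t0 i, t1 i⟩) fun x y hx hy => (hs _ _ hx hy).trans (sum_le_sum fun k _ => ?_)
  by_cases e : x k = y k
  · simp [e]
  · rw [ne1_ne e]; unfold ne1; split_ifs <;> simp

end wt
end
end Pool.Agent.H.Cube
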