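import Pool.Agent.H.MP_e859cd_co.C

set_option autoImplicit false
open Finset Function Filter Topology

namespace Pool.Agent.H.Cube
noncomputable section
open Classical

variable {r n : ℕ}

def im (x : Fin r → Fin n) : Finset ℕ := univ.image fun k => (x k : ℕ)

lemma inj_of_card {x : Fin r → Fin n} (h : (im x).card = r) : Injective fun k => (x k : ℕ) := by
  have : Set.InjOn (fun k => (x k : ℕ)) (univ : Finset (Fin r)) :=
    card_image_iff.1 (by simpa [im] using h)
  simpa using this

lemma fiber {F : Finset ℕ} (hF : F ∈ (range n).powersetCard r) :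
    (univ.filter fun x : Fin r → Fin n => im x = F).card = r.factorial := by
  obtain ⟨hs, hc⟩ := mem_powersetCard.1 hF
  have : (univ : Finset (Fin r ↪ F)).card = r.factorial := by
    simp [hc, Nat.descFactorial_self]
  rw [← this]
  symm
  refine card_bij (fun e _ => fun k => ⟨e k, mem_range.1 (hs (e k).2)⟩) ?_ ?_ ?_
  · intro e _
    simp only [mem_filter, mem_univ, true_and]
    refine eq_of_subset_of_card_le (fun v hv => ?_) ?_
    · obtain ⟨k, -, rfl⟩ := mem_image.1 hv
      exact (e k).2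
    · unfold im
      rw [card_image_of_injective _ (fun k l h => e.injective (Subtype.ext h))]
      simp [hc]
  · intro e _ e' _ h
    ext k
    exact congrArg Fin.val (congrFun h k)
  · intro x hx
    have hx' : im x = F := by simpa using hx
    refine ⟨⟨fun k => ⟨x k, hx' ▸ mem_image_of_mem _ (mem_univ k)⟩, fun k l h =>
      inj_of_card (x := x) (hx' ▸ hc) (congrArg Subtype.val h)⟩, mem_univ _, rfl⟩

lemma fam_card {𝒜 : Finset (Finset ℕ)} (h : 𝒜 ⊆ (range n).powersetCard r) :
    (univ.filter fun x : Fin r → Fin n => im x ∈ 𝒜).card = 𝒜.card * r.factorial := by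
  rw [card_eq_sum_card_fiberwise (f := im) (t := 𝒜) (fun x hx => by simpa using hx),
    ← smul_eq_mul, ← sum_const]
  refine sum_congr rfl fun F hF => ?_
  rw [← fiber (h hF)]
  congr 1
  ext x
  simp only [mem_filter, mem_univ, true_and]
  exact ⟨fun h => h.2, fun h => ⟨h ▸ hF, h⟩⟩

def U (r n : ℕ) : Fin r → Fin n → ℝ := fun _ _ => 1 / n

lemma U_nonneg (i : Fin r) (s : Fin n) : 0 ≤ U r n i s := by unfold U; positivity
lemma U_sum (hn : 0 < n) (i : Fin r) : ∑ s, U r n i s = 1 := by
  have : (n : ℝ) ≠ 0 := by positivity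
  simp [U, this]

lemma EU_fam {𝒜 : Finset (Finset ℕ)} (h : 𝒜 ⊆ (range n).powersetCard r) :
    EW (U r n) (fun x => ind (im x ∈ 𝒜)) = 𝒜.card * (r.factorial / n ^ r) := by
  have := fam_card h
  have h2 : ∑ x : Fin r → Fin n, ind (im x ∈ 𝒜) = 𝒜.card * r.factorial := by
    rw [← Nat.cast_mul, ← this, card_filter]
    push_cast
    exact sum_congr rfl fun x _ => by unfold ind; congr
  simp only [EW, U, prod_const, card_univ, Fintype.card_fin, ← mul_sum, h2]
  rw [one_div_pow]; ring

lemma EU_one (hn : 0 < n) : EW (U r n) (fun _ => 1) = 1 := by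
  have : (n : ℝ) ≠ 0 := by positivity
  simp [EW, U, this]

lemma hd_im {x y : Fin r → Fin n} (hx : (im x).card = r) : r ≤ hd x y + (im x ∩ im y).card := by
  have h1 : (univ.filter fun k => x k = y k).card ≤ (im x ∩ im y).card := by
    refine card_le_card_of_injOn (fun k => (x k : ℕ)) (fun k hk => ?_)
      (fun k _ l _ h => inj_of_card hx h)
    have hk' : x k = y k := by simpa using hk
    simp only [coe_inter, Set.mem_inter_iff, mem_coe]
    exact ⟨mem_image_of_mem _ (mem_univ k), hk' ▸ mem_image_of_mem _ (mem_univ k)⟩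
  have h2 : hd x y + (univ.filter fun k => x k = y k).card = ∑ _k : Fin r, 1 := by
    rw [card_filter, hd, ← sum_add_distrib]
    exact sum_congr rfl fun k _ => by unfold ne1; split_ifs <;> simp
  simp at h2
  omega

lemma bad_card {t : ℕ} (htr : t < r) {𝒜 ℬ : Finset (Finset ℕ)}
    (hA : 𝒜 ⊆ (range n).powersetCard r) (hB : ℬ ⊆ (range n).powersetCard r)
    (h : ∀ A ∈ 𝒜, ∀ B ∈ ℬ, (A ∩ B).card ≠ t) :
    (𝒜.filter fun A => ¬ ∀ B ∈ ℬ, (A ∩ B).card < t).card ≤ r * n ^ (r - 1) := by
  let g : Finset ℕ → Finset ℕ := fun T => if h : ∃ B ∈ ℬ, T ⊆ B then h.choose else ∅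
  have hg : ∀ T, (g T).card ≤ r := by
    intro T
    simp only [g]
    split_ifs with h
    · exact (mem_powersetCard.1 (hB h.choose_spec.1)).2.le
    · simp
  have hsub : (𝒜.filter fun A => ¬ ∀ B ∈ ℬ, (A ∩ B).card < t) ⊆
      ((range n).powersetCard t).biUnion fun T => (g T \ T).biUnion fun v =>
        ((range n).powersetCard r).filter fun A => insert v T ⊆ A := by
    intro A hA'
    obtain ⟨hA1, hA2⟩ := mem_filter.1 hA'
    push Not at hA2
    obtain ⟨B, hB1, hB2⟩ := hA2
    obtain ⟨T, hT, hTc⟩ := exists_subset_card_eq hB2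
    have hex : ∃ B ∈ ℬ, T ⊆ B := ⟨B, hB1, hT.trans inter_subset_right⟩
    have hgT : g T ∈ ℬ ∧ T ⊆ g T := by
      simp only [g, dif_pos hex]; exact hex.choose_spec
    have hTA : T ⊆ A := hT.trans inter_subset_left
    have hss : T ⊂ A ∩ g T := ⟨subset_inter hTA hgT.2, fun hc => h A hA1 _ hgT.1 (by
      rw [← hTc, subset_antisymm hc (subset_inter hTA hgT.2)])⟩
    obtain ⟨v, hv1, hv2⟩ := exists_of_ssubset hss
    refine mem_biUnion.2 ⟨T, mem_powersetCard.2
      ⟨hTA.trans (mem_powersetCard.1 (hA hA1)).1, hTc⟩, mem_biUnion.2 ⟨v, mem_sdiff.2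
        ⟨(mem_inter.1 hv1).2, hv2⟩, mem_filter.2 ⟨hA hA1, insert_subset (mem_inter.1 hv1).1 hTA⟩⟩⟩
  refine (card_le_card hsub).trans (card_biUnion_le.trans ?_)
  have h1 : ∀ T ∈ (range n).powersetCard t, ((g T \ T).biUnion fun v =>
      ((range n).powersetCard r).filter fun A => insert v T ⊆ A).card ≤ r * n ^ (r - (t + 1)) := by
    intro T hT
    refine card_biUnion_le.trans ((sum_le_card_nsmul _ _ (n ^ (r - (t + 1))) fun v hv => ?_).trans
      (Nat.mul_le_mul_right _ ((card_le_card sdiff_subset).trans (hg T))))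
    have hc : (insert v T).card = t + 1 := by
      rw [card_insert_of_notMem (mem_sdiff.1 hv).2, (mem_powersetCard.1 hT).2]
    refine (card_le_card_of_injOn (t := (range n).powersetCard (r - (t + 1)))
      (fun A => A \ insert v T) (fun A hA => ?_) (fun A hA A' hA' he => ?_)).trans ?_
    · obtain ⟨h1, h2⟩ := mem_filter.1 (mem_coe.1 hA)
      obtain ⟨h3, h4⟩ := mem_powersetCard.1 h1
      exact mem_coe.2 (mem_powersetCard.2 ⟨sdiff_subset.trans h3, by
        rw [card_sdiff_of_subset h2, h4, hc]⟩)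
    · have h2 := (mem_filter.1 (mem_coe.1 hA)).2
      have h3 := (mem_filter.1 (mem_coe.1 hA')).2
      rw [← sdiff_union_of_subset h2, ← sdiff_union_of_subset h3]
      exact congrArg (· ∪ insert v T) he
    · rw [card_powersetCard, card_range]
      exact Nat.choose_le_pow _ _
  refine (sum_le_card_nsmul _ _ _ h1).trans ?_
  rw [card_powersetCard, card_range, smul_eq_mul]
  calc _ ≤ n ^ t * (r * n ^ (r - (t + 1))) := Nat.mul_le_mul_right _ (Nat.choose_le_pow _ _)
    _ = r * n ^ (t + (r - (t + 1))) := by rw [pow_add]; ring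
    _ = _ := by rw [show t + (r - (t + 1)) = r - 1 by omega]

lemma upper {t : ℕ} {M : ℝ} (htr : t < r) (hn : 0 < n) (hM : Bound r (r - t + 1) M)
    {𝒜 ℬ : Finset (Finset ℕ)}
    (hA : 𝒜 ⊆ (range n).powersetCard r) (hB : ℬ ⊆ (range n).powersetCard r)
    (h : ∀ A ∈ 𝒜, ∀ B ∈ ℬ, (A ∩ B).card ≠ t) :
    ((𝒜.card : ℝ) * ℬ.card) * ((r.factorial : ℝ) / n ^ r) ^ 2 ≤ M + r * r.factorial / n := by
  have hb := bad_card htr hA hB h
  have hsplit := card_filter_add_card_filter_not (s := 𝒜) (fun A => ∀ B ∈ ℬ, (A ∩ B).card < t)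
  set 𝒜' := 𝒜.filter fun A => ∀ B ∈ ℬ, (A ∩ B).card < t with h𝒜'
  have hA' : 𝒜' ⊆ (range n).powersetCard r := (filter_subset _ _).trans hA
  have h1 := alphabet hM (U r n) U_nonneg (U_sum hn) (fun x => im x ∈ 𝒜') (fun x => im x ∈ ℬ)
    (fun x y hx hy => by
      have := (mem_filter.1 hx).2 _ hy
      have := hd_im (y := y) (mem_powersetCard.1 (hA' hx)).2
      omega)
  have h2 : EW (U r n) (fun x => ind (im x ∈ ℬ)) ≤ 1 := by
    rw [← EU_one (r := r) hn]
    exact EW_mono U_nonneg fun x => by unfold ind; split_ifs <;> norm_num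
  rw [EU_fam hA', EU_fam hB] at h1
  rw [EU_fam hB] at h2
  have h3 : (𝒜.card : ℝ) ≤ 𝒜'.card + r * n ^ (r - 1) := by
    have : 𝒜.card ≤ 𝒜'.card + r * n ^ (r - 1) := by omega
    exact_mod_cast this
  have hn' : (0 : ℝ) < n := by positivity
  have h4 : (r * n ^ (r - 1) : ℝ) * (r.factorial / n ^ r) = r * r.factorial / n := by
    obtain ⟨s, rfl⟩ : ∃ s, r = s + 1 := ⟨r - 1, by omega⟩
    simp only [Nat.add_sub_cancel, pow_succ]
    field_simp
  set c : ℝ := r.factorial / n ^ r with hc
  have c0 : 0 ≤ c := by positivity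
  have b0 : 0 ≤ (ℬ.card : ℝ) * c := by positivity
  calc _ = (𝒜.card * c) * (ℬ.card * c) := by ring
    _ ≤ ((𝒜'.card + r * n ^ (r - 1)) * c) * (ℬ.card * c) := by gcongr
    _ = (𝒜'.card * c) * (ℬ.card * c) + (r * r.factorial / n) * (ℬ.card * c) := by
      rw [← h4]; ring
    _ ≤ M + (r * r.factorial / n) * 1 := by gcongr
    _ = _ := by ring

lemma lower {m : ℕ} (hn : 0 < n) (hm : m ≤ n) (P : ℕ → Prop) (Q : Finset ℕ → Prop)
    [DecidablePred Q] (h : ∀ A ∈ (range n).powersetCard r, P (A ∩ (range n \ range m)).card → Q A) :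
    Bn (fun _ : Fin r => 1 - (m : ℝ) / n) P - (1 - n.choose r * (r.factorial / n ^ r)) ≤
      (((range n).powersetCard r).filter Q).card * ((r.factorial : ℝ) / n ^ r) := by
  have hn' : (n : ℝ) ≠ 0 := by positivity
  have c1 : (univ.filter fun s : Fin n => (s : ℕ) < m).card = m := by
    rw [Fin.card_filter_val_lt]; omega
  have e1 : Bn (fun _ : Fin r => 1 - (m : ℝ) / n) P =
      EW (U r n) (fun x => ind (P (wt fun i => decide (m ≤ (x i : ℕ))))) := by
    refine EW_push (fun _ : Fin r => w (1 - (m : ℝ) / n)) (U r n)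
      (fun _ (s : Fin n) => decide (m ≤ (s : ℕ))) (fun i u => ?_) _
    have c2 := card_filter_add_card_filter_not (s := (univ : Finset (Fin n))) (fun s : Fin n => (s : ℕ) < m)
    rw [c1, card_univ, Fintype.card_fin] at c2
    have c3 : ((univ.filter fun s : Fin n => ¬ (s : ℕ) < m).card : ℝ) = n - m := by
      rw [eq_sub_iff_add_eq, add_comm]; exact_mod_cast c2
    suffices key : w (1 - (m : ℝ) / n) u =
        ∑ b : Fin n, if u = decide (m ≤ (b : ℕ)) then U r n i b else 0 by convert key
    rw [← sum_filter]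
    simp only [U, sum_const, nsmul_eq_mul]
    cases u
    · rw [show (univ.filter fun s : Fin n => false = decide (m ≤ (s : ℕ))) =
        univ.filter fun s : Fin n => (s : ℕ) < m from by ext s; simp, c1]
      simp; ring
    · rw [show (univ.filter fun s : Fin n => true = decide (m ≤ (s : ℕ))) =
        univ.filter fun s : Fin n => ¬ (s : ℕ) < m from by ext s; simp, c3]
      simp; field_simp
  have e2 := EU_fam (subset_refl ((range n).powersetCard r))
  rw [card_powersetCard, card_range] at e2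
  rw [e1, ← e2, ← EU_fam (filter_subset _ _), sub_le_iff_le_add, ← add_sub_assoc, le_sub_iff_add_le,
    ← EW_add]
  conv_rhs => rw [← EU_one (r := r) hn, ← EW_add]
  refine EW_mono U_nonneg fun x => ?_
  by_cases hx : im x ∈ (range n).powersetCard r
  · have : (wt fun i => decide (m ≤ (x i : ℕ))) = (im x ∩ (range n \ range m)).card := by
      have hi := inj_of_card (mem_powersetCard.1 hx).2
      have : im x ∩ (range n \ range m) =
          (univ.filter fun i => m ≤ (x i : ℕ)).image fun k => (x k : ℕ) := by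
        ext v
        simp only [im, mem_inter, mem_image, mem_univ, true_and, Finset.mem_sdiff, mem_range, mem_filter]
        constructor
        · rintro ⟨⟨k, rfl⟩, -, h2⟩
          exact ⟨k, by omega, rfl⟩
        · rintro ⟨k, h1, rfl⟩
          exact ⟨⟨k, rfl⟩, (x k).2, by omega⟩
      rw [this, card_image_of_injective _ hi, card_filter, wt]
      simp
    rw [this]
    have h1 : ind (im x ∈ (range n).powersetCard r) = 1 := by simp only [ind, hx, if_true]
    rw [h1]
    exact add_le_add_left (ind_mono fun hP => mem_filter.2 ⟨hx, h _ hx hP⟩) 1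
  · have h1 : ind (im x ∈ (range n).powersetCard r) = 0 := by simp only [ind, hx, if_false]
    have h2 : ∀ P, ind P ≤ 1 := fun P => by unfold ind; split_ifs <;> norm_num
    rw [h1]
    linarith [h2 (P (wt fun i => decide (m ≤ (x i : ℕ)))),
      ind_nonneg (im x ∈ filter Q ((range n).powersetCard r))]

lemma tend_choose (r : ℕ) :
    Tendsto (fun n : ℕ => (n.choose r : ℝ) * (r.factorial / n ^ r)) atTop (𝓝 1) := by
  have h := (Asymptotics.isEquivalent_iff_tendsto_one (by
    filter_upwards [eventually_gt_atTop 0] with n hn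
    positivity)).1 (isEquivalent_choose r)
  refine h.congr fun n => ?_
  simp only [Pi.div_apply]
  rw [div_div_eq_mul_div, mul_div_assoc]

lemma tend_Bn (r : ℕ) (P : ℕ → Prop) {q : ℝ} (q1 : q < 1) :
    Tendsto (fun n : ℕ => Bn (fun _ : Fin r => 1 - (⌊(1 - q) * n⌋₊ : ℝ) / n) P -
      (1 - n.choose r * (r.factorial / n ^ r))) atTop (𝓝 (Bn (fun _ : Fin r => q) P)) := by
  have h1 : Tendsto (fun n : ℕ => 1 - (⌊(1 - q) * n⌋₊ : ℝ) / n) atTop (𝓝 q) := by
    have := ((tendsto_nat_floor_mul_div_atTop (a := 1 - q) (by linarith)).comp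
      tendsto_natCast_atTop_atTop).const_sub 1
    simpa using this
  have h2 : Continuous fun s : ℝ => Bn (fun _ : Fin r => s) P :=
    (mu_cont _).comp (continuous_pi fun _ => continuous_id)
  simpa using ((h2.tendsto q).comp h1).sub ((tend_choose r).const_sub 1)

end
end Pool.Agent.H.Cube
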